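import Pool.Agent.H6.ST.LP.Defs
import Pool.Agent.H68.VD.Fam

/-! # The sharp trichotomy (ST): the calculus of compactly supported families -/

set_option autoImplicit false

namespace Pool.Agent.H6.ST

open MeasureTheory Set Pool.Agent.H68.VD Pool.Agent.H68.GM
open scoped ENNReal ContDiff

noncomputable section

section

variable {n : ℕ} {U : Set (Eu n)} {E : Type} [NormedAddCommGroup E] [NormedSpace ℝ E]
  {F G : E → Eu n → Eu n}

theorem ck_fam (h : CF U F) : IsFam (⊥ : Subgroup (Eu n ≃ᵃ[ℝ] Eu n)) F := by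
  refine ⟨h.smooth, h.bij, h.det, fun e g hg x => ?_⟩
  rw [Subgroup.mem_bot] at hg
  rw [hg]
  rfl

theorem ck_inv_out {F : Eu n → Eu n} {K : Set (Eu n)} (hb : Function.Bijective F)
    (hK : ∀ x ∉ K, F x = x) : ∀ x ∉ K, Function.invFun F x = x := by
  intro x hx
  have h1 := Function.leftInverse_invFun hb.1 x
  rwa [hK x hx] at h1

theorem ck_inv [CompleteSpace E] (h : CF U F) : CF U (fun e => Function.invFun (F e)) := by
  have h1 := FamA.isFamInv (ck_fam h)
  obtain ⟨K, hK, hKU, hF⟩ := h.supp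
  exact ⟨h1.smooth, h1.bij, h1.det, K, hK, hKU, fun e => ck_inv_out (h.bij e) (hF e)⟩

theorem ck_comp (h : CF U F) (h' : CF U G) : CF U (fun e x => F e (G e x)) := by
  have h1 := FamA.isFamComp (ck_fam h) (ck_fam h')
  obtain ⟨K, hK, hKU, hF⟩ := h.supp
  obtain ⟨K', hK', hKU', hG⟩ := h'.supp
  refine ⟨h1.smooth, h1.bij, h1.det, K ∪ K', hK.union hK', union_subset hKU hKU', fun e x hx => ?_⟩
  rw [mem_union, not_or] at hx
  rw [hG e x hx.2, hF e x hx.1]

theorem ck_re {E' : Type} [NormedAddCommGroup E'] [NormedSpace ℝ E'] {r : E' → E} (h : CF U F)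
    (hr : ContDiff ℝ ∞ r) : CF U (fun e => F (r e)) := by
  have h1 := FamA.isFamRe (ck_fam h) hr
  obtain ⟨K, hK, hKU, hF⟩ := h.supp
  exact ⟨h1.smooth, h1.bij, h1.det, K, hK, hKU, fun e => hF (r e)⟩

theorem ck_const {f : Eu n → Eu n} (h : CF U F) {e : E} (he : ∀ x, F e x = f x) :
    CF U (fun (_ : ℝ) => f) := by
  have h1 : F e = f := funext he
  have h2 : CF U (fun (_ : ℝ) => F e) := ck_re (r := fun _ : ℝ => e) h contDiff_const
  rwa [h1] at h2

end

theorem cf_kit : CFKit where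
  inv := fun _ _ _ _ _ _ _ h => ck_inv h
  comp := fun _ _ _ _ _ _ _ h h' => ck_comp h h'
  re := fun _ _ _ _ _ _ _ _ _ _ h hr => ck_re h hr
  vf := fun _ _ _ _ _ _ h => ck_fam h
  cat := by
    intro n U f g Φ Ψ h h'
    refine ⟨ck_comp (ck_re (r := fun t : ℝ => 2 * t - 1) h.fam (by fun_prop))
      (ck_re (r := fun t : ℝ => 2 * t) h'.fam (by fun_prop)), fun t ht x => ?_, fun t ht x => ?_⟩
    · show Φ (2 * t - 1) (Ψ (2 * t) x) = x
      rw [h'.le0 _ (by linarith), h.le0 _ (by linarith)]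
    · show Φ (2 * t - 1) (Ψ (2 * t) x) = f (g x)
      rw [h'.ge1 _ (by linarith), h.ge1 _ (by linarith)]
  rev := by
    intro n U f Φ h
    have hf : ∀ x, Φ 1 x = f x := h.ge1 1 le_rfl
    have h1 : CF U (fun (_ : ℝ) => f) := ck_const h.fam hf
    have h2 := ck_inv h1
    have hb : Function.Bijective f := h1.bij 0
    refine ⟨ck_comp (ck_re (r := fun t : ℝ => 1 - t) h.fam (by fun_prop)) h2, fun t ht x => ?_,
      fun t ht x => ?_⟩
    · show Φ (1 - t) (Function.invFun f x) = x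
      rw [h.ge1 _ (by linarith)]
      exact Function.rightInverse_invFun hb.2 x
    · show Φ (1 - t) (Function.invFun f x) = Function.invFun f x
      rw [h.le0 _ (by linarith)]

end

end Pool.Agent.H6.ST
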