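import Pool.Agent.H6.ST.LP.Defs

/-! # The sharp trichotomy (ST), row LP2: the loops of the centres can be contracted -/

namespace Pool.Agent.H6.ST

open MeasureTheory Set Pool.Agent.H68.VD Pool.Agent.H68.GM
open scoped ENNReal ContDiff

noncomputable section

/-- A smooth bump, positive exactly on the open unit interval. -/
def lp2_b (x : ℝ) : ℝ := expNegInvGlue x * expNegInvGlue (1 - x)

theorem lp2_b_smooth : ContDiff ℝ ∞ lp2_b :=
  expNegInvGlue.contDiff.mul (expNegInvGlue.contDiff.comp (contDiff_const.sub contDiff_id))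

theorem lp2_glue_le (x : ℝ) : expNegInvGlue x ≤ 1 := by
  unfold expNegInvGlue
  split_ifs with h
  · norm_num
  · rw [Real.exp_le_one_iff]
    have h1 : 0 < x := not_le.mp h
    have h2 := inv_pos.mpr h1
    linarith

theorem lp2_b_nonneg (x : ℝ) : 0 ≤ lp2_b x :=
  mul_nonneg (expNegInvGlue.nonneg _) (expNegInvGlue.nonneg _)

theorem lp2_b_le (x : ℝ) : lp2_b x ≤ 1 :=
  mul_le_one₀ (lp2_glue_le _) (expNegInvGlue.nonneg _) (lp2_glue_le _)

theorem lp2_b_pos {x : ℝ} (h0 : 0 < x) (h1 : x < 1) : 0 < lp2_b x :=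
  mul_pos (expNegInvGlue.pos_of_pos h0) (expNegInvGlue.pos_of_pos (by linarith))

theorem lp2_b_zero {x : ℝ} (h : x ≤ 0 ∨ 1 ≤ x) : lp2_b x = 0 := by
  rcases h with h | h
  · unfold lp2_b
    rw [expNegInvGlue.zero_of_nonpos h, zero_mul]
  · unfold lp2_b
    rw [expNegInvGlue.zero_of_nonpos (x := 1 - x) (by linarith), mul_zero]

/-- The product of the bumps of both parameters. -/
def lp2_bb (q : ℝ × ℝ) : ℝ := lp2_b q.1 * lp2_b q.2

theorem lp2_bb_smooth : ContDiff ℝ ∞ lp2_bb :=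
  (lp2_b_smooth.comp contDiff_fst).mul (lp2_b_smooth.comp contDiff_snd)

theorem lp2_bb_nonneg (q : ℝ × ℝ) : 0 ≤ lp2_bb q := mul_nonneg (lp2_b_nonneg _) (lp2_b_nonneg _)

theorem lp2_bb_le (q : ℝ × ℝ) : lp2_bb q ≤ 1 :=
  mul_le_one₀ (lp2_b_le _) (lp2_b_nonneg _) (lp2_b_le _)

theorem lp2_bb_pos {q : ℝ × ℝ} (h : q ∈ Ioo (0 : ℝ) 1 ×ˢ Ioo (0 : ℝ) 1) : 0 < lp2_bb q :=
  mul_pos (lp2_b_pos h.1.1 h.1.2) (lp2_b_pos h.2.1 h.2.2)

/-- The straight homotopy. -/
def lp2_base {n : ℕ} (z : Eu n) (Z : ℝ → Eu n) (q : ℝ × ℝ) : Eu n :=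
  (1 - Real.smoothTransition q.1) • z + Real.smoothTransition q.1 • Z q.2

theorem lp2_base_smooth {n : ℕ} (z : Eu n) {Z : ℝ → Eu n} (hZ : ContDiff ℝ ∞ Z) :
    ContDiff ℝ ∞ (lp2_base z Z) := by
  have h1 : ContDiff ℝ ∞ (fun q : ℝ × ℝ => Real.smoothTransition q.1) :=
    Real.smoothTransition.contDiff.comp contDiff_fst
  exact ((contDiff_const.sub h1).smul contDiff_const).add (h1.smul (hZ.comp contDiff_snd))

theorem lp2_base_mem {n : ℕ} {U : Set (Eu n)} (hU : Convex ℝ U) {z : Eu n} {Z : ℝ → Eu n}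
    (hz : z ∈ U) (hZ : ∀ t, Z t ∈ U) (q : ℝ × ℝ) : lp2_base z Z q ∈ U :=
  hU hz (hZ q.2) (sub_nonneg.mpr (Real.smoothTransition.le_one _))
    (Real.smoothTransition.nonneg _) (by ring)

/-- Small generic points avoiding a set of small dimension. -/
theorem lp2_choose {V : Type*} [NormedAddCommGroup V] [NormedSpace ℝ V] [FiniteDimensional ℝ V]
    (E : Set V) (hE : dimH E < Module.finrank ℝ V) (ε : ℝ) (hε : 0 < ε) :
    ∃ ξ : ℕ → V, (∀ k, ‖ξ k‖ < ε) ∧ ∀ i j, i < j → ξ j - ξ i ∉ E := by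
  refine exists_seq_of_forall_finset_exists (fun x : V => ‖x‖ < ε) (fun x y : V => y - x ∉ E) ?_
  intro s _
  have hd : dimH (⋃ x ∈ (s : Set V), (fun y => x + y) '' E) < Module.finrank ℝ V := by
    rw [dimH_bUnion s.countable_toSet]
    exact (iSup₂_le fun x _ => ((isometry_add_left x).dimH_image E).le).trans_lt hE
  obtain ⟨y, hy, hy'⟩ := (dense_compl_of_dimH_lt_finrank hd).exists_mem_open
    (Metric.isOpen_ball (x := (0 : V)) (ε := ε)) ⟨0, Metric.mem_ball_self hε⟩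
  refine ⟨y, by simpa using hy', fun x hx hxy => hy ?_⟩
  refine mem_iUnion₂.mpr ⟨x, hx, y - x, hxy, ?_⟩
  simp

theorem lp_cen : LPCen := by
  intro n N hn U hU hconv z Z hz hzU hZ hZU hZ0 hZ1 hZd
  -- the compact image of the straight homotopies
  have hKc : IsCompact (⋃ i : Fin N, lp2_base (z i) (Z i) '' (Icc (0 : ℝ) 1 ×ˢ Icc (0 : ℝ) 1)) :=
    isCompact_iUnion fun i =>
      (isCompact_Icc.prod isCompact_Icc).image (lp2_base_smooth (z i) (hZ i)).continuous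
  have hKU : (⋃ i : Fin N, lp2_base (z i) (Z i) '' (Icc (0 : ℝ) 1 ×ˢ Icc (0 : ℝ) 1)) ⊆ U := by
    intro y hy
    obtain ⟨i, q, _, rfl⟩ := mem_iUnion.mp hy
    exact lp2_base_mem hconv (hzU i) (hZU i) q
  obtain ⟨ε, hε, hthick⟩ := hKc.exists_thickening_subset_open hU hKU
  -- the exceptional set
  have hS : Convex ℝ (Ioo (0 : ℝ) 1 ×ˢ Ioo (0 : ℝ) 1) := (convex_Ioo 0 1).prod (convex_Ioo 0 1)
  have hF : ∀ i j : Fin N, dimH ((fun q : ℝ × ℝ => -((lp2_bb q)⁻¹ • (lp2_base (z i) (Z i) q -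
      lp2_base (z j) (Z j) q))) '' (Ioo (0 : ℝ) 1 ×ˢ Ioo (0 : ℝ) 1)) ≤ 2 := by
    intro i j
    have hcd : ContDiffOn ℝ 1 (fun q : ℝ × ℝ => -((lp2_bb q)⁻¹ • (lp2_base (z i) (Z i) q -
      lp2_base (z j) (Z j) q))) (Ioo (0 : ℝ) 1 ×ˢ Ioo (0 : ℝ) 1) := by
      have h1 : ContDiffOn ℝ 1 (fun q : ℝ × ℝ => (lp2_bb q)⁻¹)
          (Ioo (0 : ℝ) 1 ×ˢ Ioo (0 : ℝ) 1) :=
        (lp2_bb_smooth.of_le (by norm_cast)).contDiffOn.inv
          (fun q hq => (lp2_bb_pos hq).ne')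
      have h2 : ContDiff ℝ 1 (fun q : ℝ × ℝ => lp2_base (z i) (Z i) q -
          lp2_base (z j) (Z j) q) :=
        ((lp2_base_smooth (z i) (hZ i)).sub (lp2_base_smooth (z j) (hZ j))).of_le
          (by norm_cast)
      exact (h1.smul h2.contDiffOn).neg
    refine (hcd.dimH_image_le hS subset_rfl).trans ((dimH_mono (subset_univ _)).trans ?_)
    rw [Real.dimH_univ_eq_finrank]
    simp
  have hE : dimH (⋃ i : Fin N, ⋃ j : Fin N, (fun q : ℝ × ℝ => -((lp2_bb q)⁻¹ •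
      (lp2_base (z i) (Z i) q - lp2_base (z j) (Z j) q))) '' (Ioo (0 : ℝ) 1 ×ˢ Ioo (0 : ℝ) 1)) <
      Module.finrank ℝ (Eu n) := by
    rw [dimH_iUnion]
    refine lt_of_le_of_lt (iSup_le fun i => ?_) (show (2 : ℝ≥0∞) < _ from ?_)
    · rw [dimH_iUnion]
      exact iSup_le fun j => hF i j
    · rw [finrank_euclideanSpace_fin]
      exact_mod_cast (show 2 < n by omega)
  obtain ⟨ξ, hξ, hξE⟩ := lp2_choose _ hE ε hε
  have hbase0 : ∀ i u t, u ≤ 0 → lp2_base (z i) (Z i) (u, t) = z i := by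
    intro i u t hu
    simp [lp2_base, Real.smoothTransition.zero_of_nonpos hu]
  have hbase1 : ∀ i u t, 1 ≤ u → lp2_base (z i) (Z i) (u, t) = Z i t := by
    intro i u t hu
    simp [lp2_base, Real.smoothTransition.one_of_one_le hu]
  have hbaset : ∀ i u t, t ≤ 0 ∨ 1 ≤ t → lp2_base (z i) (Z i) (u, t) = z i := by
    intro i u t ht
    have h1 : Z i t = z i := by
      rcases ht with ht | ht
      · exact hZ0 i t ht
      · exact hZ1 i t ht
    simp only [lp2_base, h1]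
    rw [← add_smul, sub_add_cancel, one_smul]
  have hbb0 : ∀ u t, (u ≤ 0 ∨ 1 ≤ u) → lp2_bb (u, t) = 0 := by
    intro u t hu
    simp [lp2_bb, lp2_b_zero hu]
  have hbbt : ∀ u t, (t ≤ 0 ∨ 1 ≤ t) → lp2_bb (u, t) = 0 := by
    intro u t hu
    simp [lp2_bb, lp2_b_zero hu]
  refine ⟨fun i q => lp2_base (z i) (Z i) q + lp2_bb q • ξ i, ?_, ?_, ?_, ?_, ?_, ?_, ?_⟩
  · intro i
    exact (lp2_base_smooth (z i) (hZ i)).add (lp2_bb_smooth.smul contDiff_const)
  · rintro i ⟨u, t⟩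
    by_cases hq : (u, t) ∈ Ioo (0 : ℝ) 1 ×ˢ Ioo (0 : ℝ) 1
    · apply hthick
      rw [Metric.mem_thickening_iff]
      refine ⟨lp2_base (z i) (Z i) (u, t), mem_iUnion.mpr ⟨i, (u, t),
        ⟨Ioo_subset_Icc_self hq.1, Ioo_subset_Icc_self hq.2⟩, rfl⟩, ?_⟩
      rw [dist_eq_norm, add_sub_cancel_left, norm_smul, Real.norm_eq_abs,
        abs_of_nonneg (lp2_bb_nonneg _)]
      calc lp2_bb (u, t) * ‖ξ i‖ ≤ 1 * ‖ξ i‖ :=
            mul_le_mul_of_nonneg_right (lp2_bb_le _) (norm_nonneg _)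
        _ = ‖ξ i‖ := one_mul _
        _ < ε := hξ i
    · have h0 : lp2_bb (u, t) = 0 := by
        by_cases hu : u ∈ Ioo (0 : ℝ) 1
        · have ht : t ∉ Ioo (0 : ℝ) 1 := fun ht => hq ⟨hu, ht⟩
          apply hbbt
          rw [mem_Ioo, not_and_or, not_lt, not_lt] at ht
          exact ht
        · apply hbb0
          rw [mem_Ioo, not_and_or, not_lt, not_lt] at hu
          exact hu
      simp only [h0, zero_smul, add_zero]
      exact lp2_base_mem hconv (hzU i) (hZU i) _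
  · rintro i j ⟨u, t⟩ hij heq
    simp only at heq
    by_cases hu : u ∈ Ioo (0 : ℝ) 1
    · by_cases ht : t ∈ Ioo (0 : ℝ) 1
      · have hpos : 0 < lp2_bb (u, t) := lp2_bb_pos ⟨hu, ht⟩
        have key : ∀ a b : Fin N, lp2_base (z a) (Z a) (u, t) + lp2_bb (u, t) • ξ a =
            lp2_base (z b) (Z b) (u, t) + lp2_bb (u, t) • ξ b → ξ a - ξ b ∈
            (⋃ i : Fin N, ⋃ j : Fin N, (fun q : ℝ × ℝ => -((lp2_bb q)⁻¹ •
            (lp2_base (z i) (Z i) q - lp2_base (z j) (Z j) q))) ''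
            (Ioo (0 : ℝ) 1 ×ˢ Ioo (0 : ℝ) 1)) := by
          intro a b hab
          refine mem_iUnion.mpr ⟨a, mem_iUnion.mpr ⟨b, (u, t), ⟨hu, ht⟩, ?_⟩⟩
          have h1 : lp2_base (z a) (Z a) (u, t) - lp2_base (z b) (Z b) (u, t) =
              -(lp2_bb (u, t) • (ξ a - ξ b)) := by
            rw [smul_sub]
            have h2 := sub_eq_zero.mpr hab
            rw [← sub_eq_zero, ← h2]
            abel
          simp only
          rw [h1, smul_neg, neg_neg, smul_smul, inv_mul_cancel₀ hpos.ne', one_smul]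
        rcases lt_or_gt_of_ne (Fin.val_ne_of_ne hij) with h | h
        · exact hξE _ _ h (key j i heq.symm)
        · exact hξE _ _ h (key i j heq)
      · rw [mem_Ioo, not_and_or, not_lt, not_lt] at ht
        rw [hbaset i u t ht, hbaset j u t ht, hbbt u t ht, zero_smul, zero_smul, add_zero,
          add_zero] at heq
        exact hij (hz heq)
    · rw [mem_Ioo, not_and_or, not_lt, not_lt] at hu
      rw [hbb0 u t hu, zero_smul, zero_smul, add_zero, add_zero] at heq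
      rcases hu with hu | hu
      · rw [hbase0 i u t hu, hbase0 j u t hu] at heq
        exact hij (hz heq)
      · rw [hbase1 i u t hu, hbase1 j u t hu] at heq
        exact hZd i j t hij heq
  · intro i u hu t
    simp only
    rw [hbase0 i u t hu, hbb0 u t (Or.inl hu), zero_smul, add_zero]
  · intro i u t hu
    simp only
    rw [hbase1 i u t hu, hbb0 u t (Or.inr hu), zero_smul, add_zero]
  · intro i u t ht
    simp only
    rw [hbaset i u t (Or.inl ht), hbbt u t (Or.inl ht), zero_smul, add_zero]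
  · intro i u t ht
    simp only
    rw [hbaset i u t (Or.inr ht), hbbt u t (Or.inr ht), zero_smul, add_zero]

end

end Pool.Agent.H6.ST
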