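import Pool.Agent.H6.ST.LP.Defs
import Pool.Agent.H68.GM.Piola
import Pool.Agent.H68.VD.Fam

/-! # The sharp trichotomy (ST): the velocity of a germ family, cut off -/

namespace Pool.Agent.H6.ST

open MeasureTheory Set Pool.Agent.H68.VD Pool.Agent.H68.GM
open scoped ENNReal ContDiff

noncomputable section

theorem lp7_adj {n : ℕ} {A : Eu n →L[ℝ] Eu n}
    (h : ∀ a b, (inner ℝ (A a) b : ℝ) = - inner ℝ a (A b)) :
    (PiolaA.adjL n + ContinuousLinearMap.id ℝ (Eu n →L[ℝ] Eu n)) A = 0 := by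
  rw [ContinuousLinearMap.add_apply, PiolaA.adjL_apply, ContinuousLinearMap.id_apply]
  apply ContinuousLinearMap.ext
  intro v
  apply ext_inner_right ℝ
  intro w
  rw [ContinuousLinearMap.add_apply, inner_add_left, ContinuousLinearMap.adjoint_inner_left, h,
    ContinuousLinearMap.zero_apply, inner_zero_left, add_neg_cancel]

theorem lp7_skew {n : ℕ} {A : Eu n →L[ℝ] Eu n}
    (h : (PiolaA.adjL n + ContinuousLinearMap.id ℝ (Eu n →L[ℝ] Eu n)) A = 0) (a b : Eu n) :
    (inner ℝ (A a) b : ℝ) = - inner ℝ a (A b) := by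
  rw [ContinuousLinearMap.add_apply, PiolaA.adjL_apply, ContinuousLinearMap.id_apply] at h
  have h1 : ContinuousLinearMap.adjoint A = -A := eq_neg_of_add_eq_zero_left h
  rw [← ContinuousLinearMap.adjoint_inner_right, h1, neg_apply, inner_neg_right]

/-- The divergence of a smooth antisymmetric matrix field is divergence free. -/
theorem lp7_divg_dv {n : ℕ} (T : Eu n → (Eu n →L[ℝ] Eu n)) (hT : ContDiff ℝ ∞ T)
    (hskew : ∀ y a b, (inner ℝ (T y a) b : ℝ) = - inner ℝ a (T y b)) (y : Eu n) :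
    divg (dv T) y = 0 := by
  set L := PiolaA.adjL n + ContinuousLinearMap.id ℝ (Eu n →L[ℝ] Eu n) with hL
  set D := fderiv ℝ (fderiv ℝ T) y with hD
  have hT1 : ContDiff ℝ ∞ (fderiv ℝ T) := hT.fderiv_right (by simp)
  have hDd : HasFDerivAt (fderiv ℝ T) D y := (hT1.differentiable (by simp) y).hasFDerivAt
  have h1 : ∀ x u, L (fderiv ℝ T x u) = 0 := by
    intro x u
    have h2 : HasFDerivAt (fun z => L (T z)) (L ∘L fderiv ℝ T x) x :=
      L.hasFDerivAt.comp x (hT.differentiable (by simp) x).hasFDerivAt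
    have h3 : (fun z => L (T z)) = fun _ => 0 := by
      funext z
      exact lp7_adj (hskew z)
    rw [h3] at h2
    have h4 := h2.unique (hasFDerivAt_const (0 : Eu n →L[ℝ] Eu n) x)
    exact congrArg (fun K : Eu n →L[ℝ] (Eu n →L[ℝ] Eu n) => K u) h4
  have hap : ∀ v, HasFDerivAt (fun z => fderiv ℝ T z v) (D.flip v) y := by
    intro v
    have h3 := hDd.clm_apply (hasFDerivAt_const v y)
    simpa using h3
  have h2 : ∀ u v, L (D u v) = 0 := by
    intro u v
    have h3 : HasFDerivAt (fun z => L (fderiv ℝ T z v)) (L ∘L D.flip v) y :=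
      L.hasFDerivAt.comp y (hap v)
    have h4 : (fun z => L (fderiv ℝ T z v)) = fun _ => 0 := by
      funext z
      exact h1 z v
    rw [h4] at h3
    have h5 := h3.unique (hasFDerivAt_const (0 : Eu n →L[ℝ] Eu n) y)
    exact congrArg (fun K : Eu n →L[ℝ] (Eu n →L[ℝ] Eu n) => K u) h5
  have hsymm : ∀ u v, D u v = D v u := by
    have : IsSymmSndFDerivAt ℝ T y := by
      apply hT.contDiffAt.isSymmSndFDerivAt
      rw [minSmoothness_of_isRCLikeNormedField]
      exact WithTop.coe_le_coe.mpr le_top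
    intro u v
    exact this.eq u v
  have hdv : HasFDerivAt (dv T) (∑ j, (D.flip (ev j)).flip (ev j)) y := by
    unfold dv
    apply HasFDerivAt.fun_sum
    intro j _
    have h3 := (hap (ev j)).clm_apply (hasFDerivAt_const (ev j) y)
    simpa using h3
  unfold divg
  rw [hdv.fderiv]
  have h3 : ∀ k, ((∑ j, (D.flip (ev j)).flip (ev j)) (ev k)) k =
      ∑ j, (inner ℝ (ev k) (D (ev k) (ev j) (ev j)) : ℝ) := by
    intro k
    rw [← PiolaA.inner_ev, _root_.sum_apply, inner_sum]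
    rfl
  rw [Finset.sum_congr rfl fun k _ => h3 k]
  have h4 : ∑ k, ∑ j, (inner ℝ (ev k) (D (ev k) (ev j) (ev j)) : ℝ) =
      - ∑ k, ∑ j, (inner ℝ (ev k) (D (ev k) (ev j) (ev j)) : ℝ) := by
    conv_lhs => rw [Finset.sum_comm]
    rw [← Finset.sum_neg_distrib]
    refine Finset.sum_congr rfl fun j _ => ?_
    rw [← Finset.sum_neg_distrib]
    refine Finset.sum_congr rfl fun k _ => ?_
    rw [hsymm (ev k) (ev j), ← lp7_skew (h2 (ev j) (ev k)), real_inner_comm]
  linarith

theorem lp7_fd {n : ℕ} {F' : Type} [NormedAddCommGroup F'] [NormedSpace ℝ F']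
    (F : ℝ × ℝ → Eu n → F') (hF : ContDiff ℝ ∞ (fun q : (ℝ × ℝ) × Eu n => F q.1 q.2)) :
    ContDiff ℝ ∞ (fun q : (ℝ × ℝ) × Eu n => fderiv ℝ (F q.1) q.2) := by
  have h : ContDiff ℝ ∞ (Function.uncurry
      (fun (p : (ℝ × ℝ) × Eu n) (x : Eu n) => F p.1 x)) :=
    hF.comp ((contDiff_fst.comp contDiff_fst).prodMk contDiff_snd)
  exact ContDiff.fderiv h contDiff_snd (by simp)

theorem lp7_dv_congr {n : ℕ} {S T : Eu n → (Eu n →L[ℝ] Eu n)} {x : Eu n}
    (h : S =ᶠ[nhds x] T) : dv S x = dv T x := by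
  unfold dv
  rw [h.fderiv_eq]

theorem lp7_dv_zero {n : ℕ} {S : Eu n → (Eu n →L[ℝ] Eu n)} {x : Eu n}
    (h : S =ᶠ[nhds x] fun _ => 0) : dv S x = 0 := by
  rw [lp7_dv_congr h]
  unfold dv
  refine Finset.sum_eq_zero fun j _ => ?_
  rw [fderiv_fun_const]
  rfl

theorem lp_cut (h1 : LPPull) (h2 : LPPot) : LPCut := by
  intro n hn g hg z r₁ r₂ hr1 hr12
  obtain ⟨Y, hYs, hYd, hYdiv⟩ := h1 n g hg
  obtain ⟨A, hAs, hAskew, hAdv, hA0⟩ := h2 n hn Y hYs hYdiv z
  obtain ⟨f, hfin, hfout⟩ : ∃ f : ContDiffBump z, f.rIn = (r₁ + r₂) / 2 ∧ f.rOut = r₂ :=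
    ⟨⟨(r₁ + r₂) / 2, r₂, by linarith, by linarith⟩, rfl, rfl⟩
  set B : ℝ × ℝ → Eu n → (Eu n →L[ℝ] Eu n) := fun q x => f x • A q x with hB
  set μ : ℝ × ℝ → Eu n → Eu n := fun q => Function.invFun (g q) with hμ
  have hμs : ContDiff ℝ ∞ (fun q : (ℝ × ℝ) × Eu n => μ q.1 q.2) := FamA.smoothInv hg
  have hBs : ContDiff ℝ ∞ (fun q : (ℝ × ℝ) × Eu n => B q.1 q.2) :=
    (f.contDiff.comp contDiff_snd).smul hAs
  have hdB : ContDiff ℝ ∞ (fun q : (ℝ × ℝ) × Eu n => dv (B q.1) q.2) := by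
    unfold dv
    refine ContDiff.sum fun j _ => ?_
    exact ((lp7_fd B hBs).clm_apply contDiff_const).clm_apply contDiff_const
  have hpair : ContDiff ℝ ∞ (fun q : (ℝ × ℝ) × Eu n => (q.1, μ q.1 q.2)) :=
    contDiff_fst.prodMk hμs
  have hgs : ContDiff ℝ ∞ (fun q : (ℝ × ℝ) × Eu n => fderiv ℝ (g q.1) (μ q.1 q.2)) :=
    (lp7_fd g hg.smooth).comp hpair
  have hskB : ∀ q x a b, (inner ℝ (B q x a) b : ℝ) = - inner ℝ a (B q x b) := by
    intro q x a b
    simp only [hB, smul_apply, inner_smul_left, inner_smul_right, hAskew]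
    simp
  have hout : ∀ q x, r₂ < ‖x - z‖ → dv (B q) x = 0 := by
    intro q x hx
    apply lp7_dv_zero
    have ho : IsOpen {x : Eu n | r₂ < ‖x - z‖} := by
      apply isOpen_lt continuous_const
      fun_prop
    filter_upwards [ho.mem_nhds hx] with w hw
    have hw' : f w = 0 := by
      apply f.zero_of_le_dist
      rw [hfout, dist_eq_norm]
      exact le_of_lt hw
    show f w • A q w = 0
    rw [hw']
    exact zero_smul ℝ (A q w)
  refine ⟨fun q y => fderiv ℝ (g q) (μ q y) (dv (B q) (μ q y)), ?_, ?_, ?_, ?_, ?_⟩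
  · exact hgs.clm_apply (hdB.comp hpair)
  · intro q y
    have hone : ∀ {F' : Type} [NormedAddCommGroup F'] [NormedSpace ℝ F']
        (F : ℝ × ℝ → Eu n → F'), ContDiff ℝ ∞ (fun q : (ℝ × ℝ) × Eu n => F q.1 q.2) →
        ContDiff ℝ ∞ (F q) := by
      intro F' _ _ F hF
      exact hF.comp (contDiff_const.prodMk contDiff_id)
    have hM : ContDiff ℝ ∞ (fun y => fderiv ℝ (g q) (μ q y)) :=
      hone (fun q y => fderiv ℝ (g q) (μ q y)) hgs
    have hBq : ContDiff ℝ ∞ (fun y => B q (μ q y)) :=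
      (hone B hBs).comp (hone μ hμs)
    have hS : ContDiff ℝ ∞ (fun y => (fderiv ℝ (g q) (μ q y)) ∘L B q (μ q y) ∘L
        (ContinuousLinearMap.adjoint (fderiv ℝ (g q) (μ q y)))) := by
      have had : ContDiff ℝ ∞ (fun y => ContinuousLinearMap.adjoint (fderiv ℝ (g q) (μ q y))) :=
        (PiolaA.adjL n).contDiff.comp hM
      exact hM.clm_comp (hBq.clm_comp had)
    have hP : (fun y => fderiv ℝ (g q) (μ q y) (dv (B q) (μ q y))) =
        dv (fun y => (fderiv ℝ (g q) (μ q y)) ∘L B q (μ q y) ∘L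
          (ContinuousLinearMap.adjoint (fderiv ℝ (g q) (μ q y)))) := by
      funext w
      exact (piola n univ univ isOpen_univ isOpen_univ (g q) (μ q)
        (FamA.smoothX hg.smooth q).contDiffOn (hone μ hμs).contDiffOn (fun _ _ => mem_univ _)
        (fun y _ => FamA.Finv hg q y) (fun x _ => by rw [hg.det q x, abs_one]) (B q)
        (hone B hBs) (hskB q) w (mem_univ w)).symm
    show divg (fun y => fderiv ℝ (g q) (μ q y) (dv (B q) (μ q y))) y = 0
    rw [hP]
    refine lp7_divg_dv _ hS ?_ y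
    intro w a b
    simp only [ContinuousLinearMap.comp_apply]
    rw [← ContinuousLinearMap.adjoint_inner_right, hskB, ContinuousLinearMap.adjoint_inner_left]
  · intro q y hy
    refine ⟨μ q y, ?_, (FamA.Finv hg q y).symm⟩
    by_contra hcon
    refine hy ?_
    show fderiv ℝ (g q) (μ q y) (dv (B q) (μ q y)) = 0
    rw [hout q _ (not_le.mp hcon), map_zero]
  · intro q x hx
    have hμx : μ q (g q x) = x := FamA.invF hg q x
    show fderiv ℝ (g q) (μ q (g q x)) (dv (B q) (μ q (g q x))) = deriv (fun u => g (u, q.2) x) q.1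
    rw [hμx]
    have hdv : dv (B q) x = Y q x := by
      rw [← hAdv q x]
      apply lp7_dv_congr
      have hx' : x ∈ Metric.ball z f.rIn := by
        rw [Metric.mem_ball, dist_eq_norm, hfin]
        linarith
      filter_upwards [Metric.isOpen_ball.mem_nhds hx'] with w hw
      have hw' : f w = 1 := f.one_of_mem_closedBall (Metric.ball_subset_closedBall hw)
      show f w • A q w = A q w
      rw [hw']
      exact one_smul ℝ (A q w)
    rw [hdv]
    exact hYd q x
  · intro q hq y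
    have hY0 : ∀ x, ‖x - z‖ ≤ r₂ → Y q x = 0 := by
      intro x hx
      have h3 : fderiv ℝ (g q) x (Y q x) = 0 := by rw [hYd, hq x hx]
      have hdet : (fderiv ℝ (g q) x).det ≠ 0 := by
        rw [hg.det q x]
        exact one_ne_zero
      have h4 : (ContinuousLinearMap.toContinuousLinearEquivOfDetNeZero _ hdet) (Y q x) = 0 := h3
      exact (map_eq_zero_iff _ (ContinuousLinearEquiv.injective _)).mp h4
    have hA0' := hA0 q r₂ hY0
    have hBz : B q = fun _ => 0 := by
      funext x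
      show f x • A q x = 0
      rcases le_or_gt ‖x - z‖ r₂ with h | h
      · rw [hA0' x h]
        exact smul_zero (A := Eu n →L[ℝ] Eu n) (f x)
      · have hw' : f x = 0 := by
          apply f.zero_of_le_dist
          rw [hfout, dist_eq_norm]
          exact le_of_lt h
        rw [hw']
        exact zero_smul ℝ (A q x)
    have h5 : dv (B q) (μ q y) = 0 := lp7_dv_zero (by rw [hBz])
    show fderiv ℝ (g q) (μ q y) (dv (B q) (μ q y)) = 0
    rw [h5, map_zero]

end

end Pool.Agent.H6.ST
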