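import Pool.Agent.H6.ST.LP.Defs

/-! # The sharp trichotomy (ST): isotopy extension (row ST-LP9) -/

set_option autoImplicit false

namespace Pool.Agent.H6.ST

open MeasureTheory Set Pool.Agent.H68.VD Pool.Agent.H68.GM Filter Topology
open scoped ENNReal ContDiff

/-- small balls around the centre stay in `U` -/
theorem lpe_tubeU {n : ℕ} {U : Set (Eu n)} (hU : IsOpen U) (g : ℝ × ℝ → Eu n → Eu n)
    (hg : Continuous (fun q : (ℝ × ℝ) × Eu n => g q.1 q.2)) (z : Eu n) (K0 : Set (ℝ × ℝ))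
    (hK : IsCompact K0) (h : ∀ q ∈ K0, g q z ∈ U) :
    ∀ᶠ r in 𝓝[>] (0 : ℝ), ∀ q ∈ K0, ∀ x, ‖x - z‖ ≤ r → g q x ∈ U := by
  have hopen : IsOpen ((fun q : (ℝ × ℝ) × Eu n => g q.1 q.2) ⁻¹' U) := hU.preimage hg
  obtain ⟨u, v, -, hv, hKu, hzv, huv⟩ := generalized_tube_lemma hK (isCompact_singleton (x := z))
    hopen (by
      rintro ⟨q, x⟩ ⟨hq, hx⟩
      rw [mem_singleton_iff] at hx
      simp only at hx hq
      subst hx
      exact h q hq)
  obtain ⟨ε, hε, hball⟩ := Metric.isOpen_iff.1 hv z (hzv rfl)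
  filter_upwards [Ioo_mem_nhdsGT hε] with r hr q hq x hx
  have hxv : x ∈ v := hball (by rw [Metric.mem_ball, dist_eq_norm]; exact lt_of_le_of_lt hx hr.2)
  exact huv (⟨hKu hq, hxv⟩ : (q, x) ∈ u ×ˢ v)

/-- small balls around two centres stay disjoint -/
theorem lpe_tubeD {n : ℕ} (g g' : ℝ × ℝ → Eu n → Eu n)
    (hg : Continuous (fun q : (ℝ × ℝ) × Eu n => g q.1 q.2))
    (hg' : Continuous (fun q : (ℝ × ℝ) × Eu n => g' q.1 q.2)) (z z' : Eu n) (K0 : Set (ℝ × ℝ))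
    (hK : IsCompact K0) (h : ∀ q ∈ K0, g q z ≠ g' q z') :
    ∀ᶠ r in 𝓝[>] (0 : ℝ), ∀ q ∈ K0, ∀ x y, ‖x - z‖ ≤ r → ‖y - z'‖ ≤ r → g q x ≠ g' q y := by
  have hc1 : Continuous (fun q : (ℝ × ℝ) × (Eu n × Eu n) => g q.1 q.2.1) :=
    hg.comp (continuous_fst.prodMk (continuous_fst.comp continuous_snd))
  have hc2 : Continuous (fun q : (ℝ × ℝ) × (Eu n × Eu n) => g' q.1 q.2.2) :=
    hg'.comp (continuous_fst.prodMk (continuous_snd.comp continuous_snd))
  have hopen : IsOpen {q : (ℝ × ℝ) × (Eu n × Eu n) | g q.1 q.2.1 ≠ g' q.1 q.2.2} :=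
    isOpen_ne_fun hc1 hc2
  obtain ⟨u, v, -, hv, hKu, hzv, huv⟩ := generalized_tube_lemma hK
    (isCompact_singleton (x := ((z, z') : Eu n × Eu n))) hopen (by
      rintro ⟨q, x⟩ ⟨hq, hx⟩
      rw [mem_singleton_iff] at hx
      simp only at hx hq
      subst hx
      exact h q hq)
  obtain ⟨ε, hε, hball⟩ := Metric.isOpen_iff.1 hv (z, z') (hzv rfl)
  filter_upwards [Ioo_mem_nhdsGT hε] with r hr q hq x y hx hy
  have hxv : ((x, y) : Eu n × Eu n) ∈ v := hball (by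
    rw [Metric.mem_ball, Prod.dist_eq, max_lt_iff, dist_eq_norm, dist_eq_norm]
    exact ⟨lt_of_le_of_lt hx hr.2, lt_of_le_of_lt hy hr.2⟩)
  exact huv (⟨hKu hq, hxv⟩ : (q, ((x, y) : Eu n × Eu n)) ∈ u ×ˢ v)

/-- clamping to the unit interval -/
noncomputable def lpe_cl (t : ℝ) : ℝ := max 0 (min 1 t)

theorem lpe_cl_mem (t : ℝ) : lpe_cl t ∈ Icc (0 : ℝ) 1 :=
  ⟨le_max_left _ _, max_le zero_le_one (min_le_left _ _)⟩

theorem lpe_cl_of_mem {t : ℝ} (h : t ∈ Icc (0 : ℝ) 1) : lpe_cl t = t := by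
  unfold lpe_cl
  rw [min_eq_right h.2, max_eq_right h.1]

theorem lpe_cl_le {t : ℝ} (h : t ≤ 0) : lpe_cl t = 0 := by
  unfold lpe_cl
  rw [min_eq_right (h.trans zero_le_one), max_eq_left h]

theorem lpe_cl_ge {t : ℝ} (h : 1 ≤ t) : lpe_cl t = 1 := by
  unfold lpe_cl
  rw [min_eq_left h, max_eq_right zero_le_one]

/-- on the ball `r₀` the family only depends on the clamped parameters -/
theorem lpe_clamp {n : ℕ} (g : ℝ × ℝ → Eu n → Eu n) (z : Eu n) (r₀ : ℝ)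
    (h0 : ∀ u ≤ 0, ∀ t x, g (u, t) x = x) (h1 : ∀ u t x, 1 ≤ u → g (u, t) x = g (1, t) x)
    (h2 : ∀ u t x, t ∉ Set.Ioo (0 : ℝ) 1 → ‖x - z‖ ≤ r₀ → g (u, t) x = x) (q : ℝ × ℝ) (x : Eu n)
    (hx : ‖x - z‖ ≤ r₀) : g q x = g (lpe_cl q.1, lpe_cl q.2) x := by
  obtain ⟨u, t⟩ := q
  simp only
  by_cases ht : t ∈ Ioo (0 : ℝ) 1
  · rw [lpe_cl_of_mem (Ioo_subset_Icc_self ht)]
    rcases le_or_gt u 0 with hu | hu
    · rw [lpe_cl_le hu, h0 u hu, h0 0 le_rfl]
    rcases le_or_gt 1 u with hu1 | hu1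
    · rw [lpe_cl_ge hu1]
      exact h1 u t x hu1
    · rw [lpe_cl_of_mem ⟨hu.le, hu1.le⟩]
  · rw [h2 u t x ht hx, h2 _ _ x ?_ hx]
    rcases le_or_gt t 0 with h | h
    · rw [lpe_cl_le h]; simp
    · rcases le_or_gt 1 t with h' | h'
      · rw [lpe_cl_ge h']; simp
      · exact absurd ⟨h, h'⟩ ht

theorem lp_ext (hC : LPCut) (hF : LPFlow) : LPExt := by
  intro n N hn U hU z g r₀ hr₀ hV h0 h1 h2 hzU hzD
  set K0 : Set (ℝ × ℝ) := Icc (0 : ℝ) 1 ×ˢ Icc (0 : ℝ) 1 with hK0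
  have hK0c : IsCompact K0 := isCompact_Icc.prod isCompact_Icc
  have hcont : ∀ i, Continuous (fun q : (ℝ × ℝ) × Eu n => g i q.1 q.2) :=
    fun i => (hV i).smooth.continuous
  -- the radius
  have hev1 : ∀ᶠ r in 𝓝[>] (0 : ℝ), ∀ i, ∀ q ∈ K0, ∀ x, ‖x - z i‖ ≤ r → g i q x ∈ U :=
    eventually_all.2 fun i => lpe_tubeU hU (g i) (hcont i) (z i) K0 hK0c fun q _ => hzU i q
  have hev2 : ∀ᶠ r in 𝓝[>] (0 : ℝ), ∀ i j, i ≠ j → ∀ q ∈ K0, ∀ x y, ‖x - z i‖ ≤ r →
      ‖y - z j‖ ≤ r → g i q x ≠ g j q y := by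
    refine eventually_all.2 fun i => eventually_all.2 fun j => ?_
    by_cases hij : i = j
    · exact Eventually.of_forall fun r h => absurd hij h
    · filter_upwards [lpe_tubeD (g i) (g j) (hcont i) (hcont j) (z i) (z j) K0 hK0c
        fun q _ => hzD i j q hij] with r hr _
      exact hr
  obtain ⟨r₂, ⟨hr1, hr2⟩, hr3⟩ := ((hev1.and hev2).and (Ioo_mem_nhdsGT hr₀)).exists
  have hr₂ : 0 < r₂ := hr3.1
  have hr₂₀ : r₂ ≤ r₀ := hr3.2.le
  have hcl : ∀ i q x, ‖x - z i‖ ≤ r₂ → g i q x = g i (lpe_cl q.1, lpe_cl q.2) x :=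
    fun i q x hx => lpe_clamp (g i) (z i) r₀ (h0 i) (h1 i) (h2 i) q x (hx.trans hr₂₀)
  have hclK : ∀ q : ℝ × ℝ, (lpe_cl q.1, lpe_cl q.2) ∈ K0 :=
    fun q => ⟨lpe_cl_mem q.1, lpe_cl_mem q.2⟩
  -- the velocity fields
  choose X hXs hXd hXsupp hXg hX0 using fun i =>
    hC n hn (g i) (hV i) (z i) (r₂ / 2) r₂ (by linarith) (by linarith)
  -- vanishing of the derivative outside of the unit square
  have hder : ∀ i (q : ℝ × ℝ), q.1 < 0 ∨ 1 < q.1 ∨ q.2 ∉ Ioo (0 : ℝ) 1 → ∀ y, X i q y = 0 := by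
    intro i q hq
    refine hX0 i q fun x hx => ?_
    rcases hq with hq | hq | hq
    · have : (fun u => g i (u, q.2) x) =ᶠ[𝓝 q.1] fun _ => x := by
        filter_upwards [Iio_mem_nhds hq] with u hu
        exact h0 i u (le_of_lt hu) q.2 x
      rw [this.deriv_eq, deriv_const]
    · have : (fun u => g i (u, q.2) x) =ᶠ[𝓝 q.1] fun _ => g i (1, q.2) x := by
        filter_upwards [Ioi_mem_nhds hq] with u hu
        exact h1 i u q.2 x (le_of_lt hu)
      rw [this.deriv_eq, deriv_const]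
    · have : (fun u => g i (u, q.2) x) = fun _ => x := by
        funext u
        exact h2 i u q.2 x hq (hx.trans hr₂₀)
      rw [this, deriv_const]
  set Y : ℝ × ℝ → Eu n → Eu n := fun q y => ∑ i, X i q y with hY
  have hYs : ContDiff ℝ ∞ (fun q : (ℝ × ℝ) × Eu n => Y q.1 q.2) :=
    ContDiff.sum fun i _ => hXs i
  have hYd : ∀ q y, divg (Y q) y = 0 := by
    intro q y
    have hdiff : ∀ i, DifferentiableAt ℝ (X i q) y := by
      intro i
      have : ContDiff ℝ ∞ (fun x : Eu n => X i q x) :=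
        (hXs i).comp (contDiff_const.prodMk contDiff_id)
      exact (this.differentiable (by simp)) y
    have hfd : fderiv ℝ (Y q) y = ∑ i, fderiv ℝ (X i q) y := by
      have : Y q = fun y => ∑ i, X i q y := rfl
      rw [this]
      exact fderiv_fun_sum fun i _ => hdiff i
    unfold divg
    rw [hfd]
    have h3 : ∀ i, ∑ j, (fderiv ℝ (X i q) y (ev j)) j = 0 := fun i => hXd i q y
    calc ∑ j, ((∑ i, fderiv ℝ (X i q) y) (ev j)) j
        = ∑ j, ∑ i, (fderiv ℝ (X i q) y (ev j)) j := by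
          refine Finset.sum_congr rfl fun j _ => ?_
          rw [_root_.sum_apply, WithLp.ofLp_sum, Finset.sum_apply]
      _ = 0 := by
          rw [Finset.sum_comm]
          exact Finset.sum_eq_zero fun i _ => h3 i
  -- the compact support
  set K : Set (Eu n) := ⋃ i, (fun q : (ℝ × ℝ) × Eu n => g i q.1 q.2) ''
    (K0 ×ˢ Metric.closedBall (z i) r₂) with hKdef
  have hKc : IsCompact K := isCompact_iUnion fun i =>
    (hK0c.prod (isCompact_closedBall (z i) r₂)).image (hcont i)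
  have hKU : K ⊆ U := by
    intro y hy
    rw [hKdef, mem_iUnion] at hy
    obtain ⟨i, ⟨⟨q, x⟩, ⟨hq, hx⟩, rfl⟩⟩ := hy
    rw [Metric.mem_closedBall, dist_eq_norm] at hx
    exact hr1 i q hq x hx
  have hYK : ∀ q, ∀ y ∉ K, Y q y = 0 := by
    intro q y hy
    refine Finset.sum_eq_zero fun i _ => ?_
    by_contra hne
    obtain ⟨x, hx, rfl⟩ := hXsupp i q y hne
    apply hy
    rw [hKdef, mem_iUnion]
    refine ⟨i, ((lpe_cl q.1, lpe_cl q.2), x), ⟨hclK q, ?_⟩, ?_⟩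
    · rw [Metric.mem_closedBall, dist_eq_norm]; exact hx
    · exact (hcl i q x hx).symm
  have hYR : ∃ R : ℝ, ∀ q : ℝ × ℝ, R < ‖q‖ → ∀ y, Y q y = 0 := by
    refine ⟨1, fun q hq y => Finset.sum_eq_zero fun i _ => hder i q ?_ y⟩
    rw [Prod.norm_def, lt_max_iff, Real.norm_eq_abs, Real.norm_eq_abs, lt_abs, lt_abs] at hq
    rcases hq with (h | h) | (h | h)
    · exact Or.inr (Or.inl h)
    · exact Or.inl (by linarith)
    · exact Or.inr (Or.inr fun h' => by linarith [h'.2])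
    · exact Or.inr (Or.inr fun h' => by linarith [h'.1])
  obtain ⟨G, hGc, hG0, -, hGu⟩ := hF n U hU Y hYs hYd ⟨K, hKc, hKU, hYK⟩ hYR
  refine ⟨fun t => G (1, t), r₂ / 2, ?_, by linarith, ?_, ?_⟩
  · refine ⟨?_, fun t => hGc.bij (1, t), fun t x => hGc.det (1, t) x, ?_⟩
    · have hc : ContDiff ℝ ∞ (fun q : ℝ × Eu n => (((1 : ℝ), q.1), q.2)) :=
        (contDiff_const.prodMk contDiff_fst).prodMk contDiff_snd
      exact hGc.smooth.comp hc
    · obtain ⟨K', hK', hK'U, hK'e⟩ := hGc.supp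
      exact ⟨K', hK', hK'U, fun t x hx => hK'e (1, t) x hx⟩
  · intro t ht x
    have h3 := hGu t 1 (fun _ => x) zero_le_one (fun u _ => by
      have : Y (u, t) x = 0 := Finset.sum_eq_zero fun i _ => hder i (u, t) (Or.inr (Or.inr ht)) x
      simp only
      rw [this]
      exact hasDerivAt_const u x) 1 ⟨zero_le_one, le_rfl⟩
    exact h3.symm
  · intro i t x hx
    have hx2 : ‖x - z i‖ ≤ r₂ := hx.trans (by linarith)
    have hsm : ContDiff ℝ ∞ (fun u : ℝ => g i (u, t) x) :=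
      (hV i).smooth.comp ((contDiff_id.prodMk contDiff_const).prodMk contDiff_const)
    have h3 := hGu t 1 (fun u => g i (u, t) x) zero_le_one (fun u _ => by
      have h4 : Y (u, t) (g i (u, t) x) = deriv (fun u => g i (u, t) x) u := by
        have h5 : Y (u, t) (g i (u, t) x) = X i (u, t) (g i (u, t) x) := by
          refine Finset.sum_eq_single i (fun j _ hji => ?_) (fun h => absurd (Finset.mem_univ i) h)
          by_contra hne
          obtain ⟨x', hx', he⟩ := hXsupp j (u, t) _ hne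
          have h6 := hr2 i j (Ne.symm hji) _ (hclK (u, t)) x x' hx2 hx'
          rw [← hcl i (u, t) x hx2, ← hcl j (u, t) x' hx'] at h6
          exact h6 he
        rw [h5]
        exact hXg i (u, t) x hx
      simp only
      rw [h4]
      exact ((hsm.differentiable (by simp)) u).hasDerivAt) 1 ⟨zero_le_one, le_rfl⟩
    rw [h0 i 0 le_rfl t x] at h3
    exact h3.symm

end Pool.Agent.H6.ST
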