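import Pool.Agent.H6.ST.LP.Defs
import Pool.Agent.H68.VD.VelDiv
import Pool.Agent.SFl.Glob

/-! # ST-LP8: the flow of a divergence free field with compact support, with a parameter -/

set_option autoImplicit false

namespace Pool.Agent.H6.ST

open MeasureTheory Set Pool.Agent.H68.VD Pool.Agent.H68.GM
open scoped ENNReal ContDiff NNReal

/-- The derivative of the determinant at the identity is the trace. -/
private theorem lp8_det {n : ℕ} (A : ℝ → (Eu n →L[ℝ] Eu n)) (A' : Eu n →L[ℝ] Eu n) (t : ℝ)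
    (h : ∀ i, HasDerivAt (fun τ => A τ (ev i)) (A' (ev i)) t)
    (h1 : A t = ContinuousLinearMap.id ℝ (Eu n)) :
    HasDerivAt (fun τ => (A τ).det) (∑ j, (A' (ev j)) j) t := by
  classical
  set b := (EuclideanSpace.basisFun (Fin n) ℝ).toBasis with hb
  have hbe : ∀ i, b i = ev i := by
    intro i
    simp [hb, ev]
  have hcoord : ∀ (B : Eu n →L[ℝ] Eu n) (i j : Fin n),
      LinearMap.toMatrix b b (B : Eu n →ₗ[ℝ] Eu n) i j = (B (ev j)) i := by
    intro B i j
    rw [LinearMap.toMatrix_apply, hbe]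
    simp [hb]
  have hdet : ∀ τ, (LinearMap.toMatrix b b (A τ : Eu n →ₗ[ℝ] Eu n)).det = (A τ).det := by
    intro τ
    rw [LinearMap.det_toMatrix]
  have hM := VelDivA.hasDerivAt_det (fun τ => LinearMap.toMatrix b b (A τ : Eu n →ₗ[ℝ] Eu n))
    (LinearMap.toMatrix b b (A' : Eu n →ₗ[ℝ] Eu n)) t ?_ ?_
  · simp_rw [hdet, hcoord] at hM
    exact hM
  · intro i j
    simp_rw [hcoord]
    exact (EuclideanSpace.proj (𝕜 := ℝ) i : Eu n →L[ℝ] ℝ).hasFDerivAt.comp_hasDerivAt t (h j)
  · rw [h1]
    simp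

theorem lp_flow : LPFlow := by
  intro n U hU X hX hdiv hK hR
  obtain ⟨K, hKc, hKU, hXK⟩ := hK
  obtain ⟨R, hXR⟩ := hR
  -- the field has compact support
  obtain ⟨X', hX'⟩ : ∃ X' : (ℝ × ℝ) × Eu n → Eu n, X' = fun q => X q.1 q.2 := ⟨_, rfl⟩
  have hX's : ContDiff ℝ ∞ X' := by rw [hX']; exact hX
  have hX'c : HasCompactSupport X' := by
    refine HasCompactSupport.intro ((isCompact_closedBall (0 : ℝ × ℝ) R).prod hKc) ?_
    rintro ⟨q, y⟩ hq
    rw [hX']
    show X q y = 0
    by_cases h1 : q ∈ Metric.closedBall (0 : ℝ × ℝ) R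
    · exact hXK q y fun h2 => hq ⟨h1, h2⟩
    · rw [mem_closedBall_zero_iff, not_le] at h1
      exact hXR q h1 y
  obtain ⟨M, hM⟩ := hX's.continuous.bounded_above_of_compact_support hX'c
  obtain ⟨L, hL⟩ := ContDiff.lipschitzWith_of_hasCompactSupport hX'c hX's (by simp)
  have hM' : ∀ q y, ‖X q y‖ ≤ M := fun q y => by
    have := hM (q, y)
    rwa [hX'] at this
  -- the suspension
  obtain ⟨u, hu⟩ : ∃ u : ℝ × (ℝ × (ℝ × Eu n)) → ℝ × (ℝ × Eu n),
      u = fun z => (1, (0, X (z.2.1, z.2.2.1) z.2.2.2)) := ⟨_, rfl⟩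
  have hus : ContDiff ℝ ∞ u := by
    rw [hu]
    refine contDiff_const.prodMk (contDiff_const.prodMk ?_)
    have h1 : ContDiff ℝ ∞ (fun z : ℝ × (ℝ × (ℝ × Eu n)) => ((z.2.1, z.2.2.1), z.2.2.2)) :=
      ((contDiff_fst.comp contDiff_snd).prodMk
        (contDiff_fst.comp (contDiff_snd.comp contDiff_snd))).prodMk
        (contDiff_snd.comp (contDiff_snd.comp contDiff_snd))
    exact hX.comp h1
  have hub : ∀ T : ℝ, ∃ M : ℝ, ∀ t x, |t| ≤ T → ‖u (t, x)‖ ≤ M := by
    intro T
    refine ⟨max 1 M, fun t x _ => ?_⟩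
    rw [hu]
    show ‖((1 : ℝ), ((0 : ℝ), X (x.1, x.2.1) x.2.2))‖ ≤ max 1 M
    rw [Prod.norm_mk, Prod.norm_mk]
    refine max_le ?_ (max_le ?_ ?_)
    · simp
    · simp
    · exact (hM' _ _).trans (le_max_right _ _)
  obtain ⟨φ, hφ, hφs⟩ := SFl.exists_smooth hus hub
  have huv : ∀ t w, u (t, w) = (1, (0, X (w.1, w.2.1) w.2.2)) := fun t w => by rw [hu]
  -- the components
  have hd1 : ∀ w r, HasDerivAt (fun r => (φ r w).1) 1 r := by
    intro w r
    have h1 := (ContinuousLinearMap.fst ℝ ℝ (ℝ × Eu n)).hasFDerivAt.comp_hasDerivAt r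
      (hφ.deriv r w)
    rw [huv] at h1
    exact h1
  have hd2 : ∀ w r, HasDerivAt (fun r => (φ r w).2.1) 0 r := by
    intro w r
    have h1 := ((ContinuousLinearMap.fst ℝ ℝ (Eu n)).comp
      (ContinuousLinearMap.snd ℝ ℝ (ℝ × Eu n))).hasFDerivAt.comp_hasDerivAt r (hφ.deriv r w)
    rw [huv] at h1
    exact h1
  have hd3 : ∀ w r, HasDerivAt (fun r => (φ r w).2.2)
      (X ((φ r w).1, (φ r w).2.1) (φ r w).2.2) r := by
    intro w r
    have h1 := ((ContinuousLinearMap.snd ℝ ℝ (Eu n)).comp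
      (ContinuousLinearMap.snd ℝ ℝ (ℝ × Eu n))).hasFDerivAt.comp_hasDerivAt r (hφ.deriv r w)
    rw [huv] at h1
    exact h1
  have hc1 : ∀ w r, (φ r w).1 = w.1 + r := by
    intro w r
    have h1 : ∀ r, HasDerivAt (fun r => (φ r w).1 - r) 0 r := fun r => by
      have := (hd1 w r).sub (hasDerivAt_id r)
      rwa [sub_self] at this
    have h2 := is_const_of_deriv_eq_zero (fun r => (h1 r).differentiableAt)
      (fun r => (h1 r).deriv) r 0
    simp only [hφ.zero] at h2
    linarith
  have hc2 : ∀ w r, (φ r w).2.1 = w.2.1 := by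
    intro w r
    have h2 := is_const_of_deriv_eq_zero (fun r => (hd2 w r).differentiableAt)
      (fun r => (hd2 w r).deriv) r 0
    simp only [hφ.zero] at h2
    exact h2
  have hgrp : ∀ w r r', φ (r + r') w = φ r' (φ r w) := by
    intro w r r'
    refine SFl.flow_unique hus (T := |r'| + 1) (γ := fun r' => φ (r + r') w)
      (γ' := fun r' => φ r' (φ r w)) ?_ (fun t _ => ?_) (fun t _ => ?_) r'
      ⟨by linarith [neg_abs_le r'], by linarith [le_abs_self r']⟩
    · simp only [add_zero, hφ.zero]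
    · have h1 := (hφ.deriv (r + t) w).comp_const_add r t
      simp only [huv] at h1 ⊢
      exact h1
    · have h1 := hφ.deriv t (φ r w)
      exact h1
  obtain ⟨G, hG⟩ : ∃ G : ℝ × ℝ → Eu n → Eu n, G = fun q x => (φ q.1 (0, (q.2, x))).2.2 :=
    ⟨_, rfl⟩
  have hGe : ∀ r t x, φ r (0, (t, x)) = (r, (t, G (r, t) x)) := by
    intro r t x
    rw [hG]
    refine Prod.ext ?_ (Prod.ext ?_ rfl)
    · rw [hc1]
      simp
    · rw [hc2]
  have hGs : ContDiff ℝ ∞ (fun q : (ℝ × ℝ) × Eu n => G q.1 q.2) := by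
    rw [hG]
    have h1 : ContDiff ℝ ∞ (fun q : (ℝ × ℝ) × Eu n =>
        (q.1.1, ((0 : ℝ), (q.1.2, q.2)))) :=
      (contDiff_fst.comp contDiff_fst).prodMk (contDiff_const.prodMk
        ((contDiff_snd.comp contDiff_fst).prodMk contDiff_snd))
    exact contDiff_snd.comp (contDiff_snd.comp (hφs.comp h1))
  have hG0 : ∀ t x, G (0, t) x = x := by
    intro t x
    have h1 := hGe 0 t x
    rw [hφ.zero] at h1
    exact (congrArg (fun w : ℝ × (ℝ × Eu n) => w.2.2) h1).symm
  have hGd : ∀ r t x, HasDerivAt (fun r => G (r, t) x) (X (r, t) (G (r, t) x)) r := by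
    intro r t x
    have h1 := hd3 (0, (t, x)) r
    rw [hGe] at h1
    have h2 : (fun r => (φ r (0, (t, x))).2.2) = fun r => G (r, t) x := by
      funext r'
      rw [hGe]
    rw [h2] at h1
    exact h1
  have hGsl : ∀ q, ContDiff ℝ ∞ (G q) := fun q =>
    hGs.comp (contDiff_const.prodMk contDiff_id)
  refine ⟨G, ⟨hGs, ?_, ?_, K, hKc, hKU, ?_⟩, hG0, hGd, ?_⟩
  · -- bijectivity
    rintro ⟨r, t⟩
    have hb := SFl.flow_bij hus hub hφ r
    constructor
    · intro x x' hxx
      have h1 : φ r (0, (t, x)) = φ r (0, (t, x')) := by rw [hGe, hGe, hxx]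
      have h2 := hb.1 h1
      exact congrArg (fun w : ℝ × (ℝ × Eu n) => w.2.2) h2
    · intro y
      obtain ⟨⟨s, t', x⟩, hw⟩ := hb.2 (r, (t, y))
      have h1 := hc1 (s, (t', x)) r
      have h2 := hc2 (s, (t', x)) r
      rw [hw] at h1 h2
      simp only at h1 h2
      have h3 : s = 0 := by linarith
      subst h3
      subst h2
      refine ⟨x, ?_⟩
      rw [hGe] at hw
      exact congrArg (fun w : ℝ × (ℝ × Eu n) => w.2.2) hw
  · -- the determinant
    rintro ⟨r, t⟩ x
    -- the flow from the time `r₀`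
    have hD : ∀ r₀, HasDerivAt (fun r => (fderiv ℝ (G (r, t)) x).det) 0 r₀ := by
      intro r₀
      obtain ⟨H, hH⟩ : ∃ H : ℝ → Eu n → Eu n, H = fun r y => (φ r (r₀, (t, y))).2.2 := ⟨_, rfl⟩
      have hHs : ContDiff ℝ ∞ (fun q : ℝ × Eu n => H q.1 q.2) := by
        rw [hH]
        have h1 : ContDiff ℝ ∞ (fun q : ℝ × Eu n => (q.1, (r₀, (t, q.2)))) :=
          contDiff_fst.prodMk (contDiff_const.prodMk (contDiff_const.prodMk contDiff_snd))
        exact contDiff_snd.comp (contDiff_snd.comp (hφs.comp h1))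
      have hHsl : ∀ r, ContDiff ℝ ∞ (H r) := fun r =>
        hHs.comp (contDiff_const.prodMk contDiff_id)
      have hH0 : ∀ y, H 0 y = y := by
        intro y
        rw [hH]
        simp only [hφ.zero]
      have hHG : ∀ r y, H r (G (r₀, t) y) = G (r₀ + r, t) y := by
        intro r y
        have h1 := hgrp (0, (t, y)) r₀ r
        rw [hGe, hGe] at h1
        rw [hH]
        exact (congrArg (fun w : ℝ × (ℝ × Eu n) => w.2.2) h1).symm
      have hHd : ∀ y, HasDerivAt (fun r => H r y) (X (r₀, t) y) 0 := by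
        intro y
        have h1 := hd3 (r₀, (t, y)) 0
        rw [hφ.zero] at h1
        rw [hH]
        exact h1
      have h1 : ∀ y, HasDerivAt (fun r => (fderiv ℝ (H r) y).det) 0 0 := by
        intro y
        have h2 := lp8_det (fun r => fderiv ℝ (H r) y) (fderiv ℝ (X (r₀, t)) y) 0 (fun i => ?_) ?_
        · have h3 := hdiv (r₀, t) y
          unfold divg at h3
          rw [h3] at h2
          exact h2
        · have h3 := VelDivA.mixed (fun q : ℝ × Eu n => H q.1 q.2) hHs 0 y (ev i)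
          have h4 : (fun z => deriv (fun τ => H τ z) 0) = X (r₀, t) := by
            funext z
            exact (hHd z).deriv
          simp only [h4] at h3
          exact h3
        · have h3 : H 0 = id := funext hH0
          simp only [h3]
          exact fderiv_id
      have h2 : (fun r => (fderiv ℝ (G (r, t)) x).det) =
          fun r => (fderiv ℝ (H (r - r₀)) (G (r₀, t) x)).det * (fderiv ℝ (G (r₀, t)) x).det := by
        funext r
        have h3 : G (r, t) = H (r - r₀) ∘ G (r₀, t) := by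
          funext y
          have h4 := hHG (r - r₀) y
          rw [add_sub_cancel] at h4
          exact h4.symm
        have h5 : fderiv ℝ (G (r, t)) x =
            (fderiv ℝ (H (r - r₀)) (G (r₀, t) x)).comp (fderiv ℝ (G (r₀, t)) x) := by
          conv_lhs => rw [h3]
          exact fderiv_comp x ((hHsl _).differentiable (by simp) _)
            ((hGsl _).differentiable (by simp) _)
        rw [h5]
        exact LinearMap.det_comp _ _
      rw [h2]
      have h4 : HasDerivAt (fun r : ℝ => r - r₀) 1 r₀ := (hasDerivAt_id r₀).sub_const r₀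
      have h6 : HasDerivAt (fun r => (fderiv ℝ (H (r - r₀)) (G (r₀, t) x)).det) (0 * 1) r₀ :=
        HasDerivAt.comp_of_eq r₀ (h1 (G (r₀, t) x)) h4 (sub_self r₀).symm
      have h7 := h6.mul_const ((fderiv ℝ (G (r₀, t)) x).det)
      rw [zero_mul, zero_mul] at h7
      exact h7
    have h1 := is_const_of_deriv_eq_zero (fun r => (hD r).differentiableAt)
      (fun r => (hD r).deriv) r 0
    rw [h1]
    have h2 : G (0, t) = id := funext (hG0 t)
    rw [h2, fderiv_id]
    exact LinearMap.det_id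
  · -- the support
    rintro ⟨r, t⟩ x hx
    have h1 : φ r (0, (t, x)) = (r, (t, x)) := by
      refine SFl.flow_unique hus (T := |r| + 1) (γ := fun r => φ r (0, (t, x)))
        (γ' := fun r => (r, (t, x))) (hφ.zero _) (fun s _ => hφ.deriv s _) (fun s _ => ?_) r
        ⟨by linarith [neg_abs_le r], by linarith [le_abs_self r]⟩
      rw [huv]
      show HasDerivAt (fun r : ℝ => (r, (t, x))) ((1 : ℝ), ((0 : ℝ), X (s, t) x)) s
      rw [hXK (s, t) x hx]
      exact (hasDerivAt_id s).prodMk ((hasDerivAt_const s t).prodMk (hasDerivAt_const s x))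
    rw [hGe] at h1
    exact congrArg (fun w : ℝ × (ℝ × Eu n) => w.2.2) h1
  · -- uniqueness
    intro t T γ hT hγ r hr
    have hv : ∀ s, LipschitzWith L (fun y => X (s, t) y) := by
      intro s
      refine LipschitzWith.of_dist_le_mul fun y y' => ?_
      have h1 := hL.dist_le_mul ((s, t), y) ((s, t), y')
      rw [hX'] at h1
      rwa [Prod.dist_eq, dist_self, max_eq_right dist_nonneg] at h1
    refine ODE_solution_unique (v := fun s y => X (s, t) y) hv
      (fun s hs => (hγ s hs).continuousAt.continuousWithinAt)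
      (fun s hs => (hγ s ⟨hs.1, hs.2.le⟩).hasDerivWithinAt)
      (fun s _ => (hGd s t (γ 0)).continuousAt.continuousWithinAt)
      (fun s _ => (hGd s t (γ 0)).hasDerivWithinAt) (hG0 t (γ 0)).symm hr

end Pool.Agent.H6.ST
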