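import Pool.Agent.H6.ST.LP.Defs

/-! # The sharp trichotomy (ST), ST-LP10: isotopies rel small balls -/

set_option autoImplicit false

namespace Pool.Agent.H6.ST

open MeasureTheory Set Pool.Agent.H68.VD Pool.Agent.H68.GM
open scoped ENNReal ContDiff

/-- the inverse of a map which is the identity -/
theorem lp10_inv {n : ℕ} {f : Eu n → Eu n} (hf : Function.Bijective f) {x y : Eu n}
    (h : f x = y) : Function.invFun f y = x := by
  rw [← h]
  exact Function.leftInverse_invFun hf.1 x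

theorem lp_gen (hK : CFKit) (hC : LPCen) (hG : LPGerm) (hE : LPExt) : LPGen := by
  intro n N hn U hU hUc z r₀ hz hzU hr₀ w Φ hΦ hw hcontr
  have hw1 : ∀ i t, 1 ≤ t → Φ t (z i) = z i := by
    intro i t ht
    rw [hΦ.ge1 t ht, hw i (z i) (by rw [sub_self, norm_zero]; exact hr₀.le)]
  obtain ⟨K, _, hKU, hKid⟩ := hΦ.fam.supp
  have hZU : ∀ i t, Φ t (z i) ∈ U := by
    intro i t
    by_cases hm : Φ t (z i) ∈ K
    · exact hKU hm
    · have h1 : Φ t (Φ t (z i)) = Φ t (z i) := hKid t _ hm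
      rw [(hΦ.fam.bij t).1 h1]
      exact hzU i
  obtain ⟨c, hc1, hc2, hc3, hc4, hc5, hc6, hc7⟩ := hC n N hn U hU hUc z (fun i t => Φ t (z i)) hz
    hzU (fun i => hΦ.fam.smooth.comp (contDiff_id.prodMk contDiff_const)) hZU
    (fun i t ht => hΦ.le0 t ht (z i)) hw1
    (fun i j t hij h => hij (hz ((hΦ.fam.bij t).1 h)))
  have hgerm : ∀ i, ∃ g : ℝ × ℝ → Eu n → Eu n, VF g ∧
      (∀ u ≤ 0, ∀ t x, g (u, t) x = x) ∧ (∀ u t x, 1 ≤ u → g (u, t) x = Φ t x) ∧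
      (∀ u t, g (u, t) (z i) = c i (3 * u, t)) ∧
      ∀ u t x, t ∉ Set.Ioo (0 : ℝ) 1 → ‖x - z i‖ ≤ r₀ → g (u, t) x = x := by
    intro i
    refine hG n Φ (hK.vf n U ℝ Φ hΦ.fam) hΦ.le0 ?_ (z i) r₀ hr₀ ?_ (hcontr i) (c i) (hc1 i)
      (hc4 i) (fun u t hu => hc5 i u t hu) (hc6 i) (fun u t ht => hc7 i u t ht)
    · intro t ht x
      rw [hΦ.ge1 t ht, hΦ.ge1 1 le_rfl]
    · intro x hx
      rw [hΦ.ge1 1 le_rfl, hw i x hx]
  choose g hg1 hg2 hg3 hg4 hg5 using hgerm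
  obtain ⟨G, r, hG1, hr, hG2, hG3⟩ := hE n N (by omega) U hU z g r₀ hr₀ hg1 hg2
    (fun i u t x hu => by rw [hg3 i u t x hu, hg3 i 1 t x le_rfl]) hg5
    (fun i q => by obtain ⟨u, t⟩ := q; rw [hg4]; exact hc2 i _)
    (fun i j q hij => by obtain ⟨u, t⟩ := q; rw [hg4, hg4]; exact hc3 i j _ hij)
  refine ⟨fun t x => Function.invFun (G t) (Φ t x), r, ⟨?_, ?_, ?_⟩, hr, ?_⟩
  · exact hK.comp n U ℝ (fun t => Function.invFun (G t)) Φ (hK.inv n U ℝ G hG1) hΦ.fam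
  · intro t ht x
    have h1 : t ∉ Set.Ioo (0 : ℝ) 1 := fun h => absurd h.1 (not_lt.mpr ht)
    change Function.invFun (G t) (Φ t x) = x
    rw [hΦ.le0 t ht x]
    exact lp10_inv (hG1.bij t) (hG2 t h1 x)
  · intro t ht x
    have h1 : t ∉ Set.Ioo (0 : ℝ) 1 := fun h => absurd h.2 (not_lt.mpr ht)
    change Function.invFun (G t) (Φ t x) = w x
    rw [hΦ.ge1 t ht x]
    exact lp10_inv (hG1.bij t) (hG2 t h1 (w x))
  · intro t i x hx
    change Function.invFun (G t) (Φ t x) = x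
    refine lp10_inv (hG1.bij t) ?_
    rw [hG3 i t x hx, hg3 i 1 t x le_rfl]

end Pool.Agent.H6.ST
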