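import Pool.Agent.H6.ST.LP.Defs
import Pool.Agent.H68.VD.Stream

/-! # The radial potential of a divergence free field (ST-LP6) -/

namespace Pool.Agent.H6.ST

open MeasureTheory Set Pool.Agent.H68.VD Pool.Agent.H68.GM
open scoped ENNReal ContDiff

noncomputable section

namespace PotA

variable {n : ℕ}

/-- The functional `a ↦ ⟨v, a⟩`. -/
def L (v : Eu n) : Eu n →L[ℝ] ℝ := ∑ j, v j • (EuclideanSpace.proj j : Eu n →L[ℝ] ℝ)

theorem L_apply (v a : Eu n) : L v a = ∑ j, v j * a j := by
  simp [L]

theorem L_inner (v a : Eu n) : L v a = inner ℝ v a := by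
  rw [L_apply, PiLp.inner_apply]
  refine Finset.sum_congr rfl fun j _ => ?_
  simp [mul_comm]

theorem L_comm (v a : Eu n) : L v a = L a v := by
  rw [L_apply, L_apply]
  exact Finset.sum_congr rfl fun j _ => mul_comm _ _

theorem L_ev (w : Eu n) (j : Fin n) : L (ev j) w = w j := by
  rw [L_apply, Finset.sum_eq_single j]
  · simp [ev]
  · intro b _ hb
    simp [ev, hb]
  · simp

theorem L_smooth {E : Type} [NormedAddCommGroup E] [NormedSpace ℝ E] {f : E → Eu n}
    (hf : ContDiff ℝ ∞ f) : ContDiff ℝ ∞ (fun e => L (f e)) := by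
  unfold L
  refine ContDiff.sum fun j _ => ?_
  exact ((EuclideanSpace.proj j : Eu n →L[ℝ] ℝ).contDiff.comp hf).smul contDiff_const

/-- The skew operator `a ↦ ⟨v, a⟩ y - ⟨y, a⟩ v`. -/
def W (v y : Eu n) : Eu n →L[ℝ] Eu n := (L v).smulRight y - (L y).smulRight v

theorem W_apply (v y a : Eu n) : W v y a = L a v • y - L a y • v := by
  rw [W, sub_apply, ContinuousLinearMap.smulRight_apply,
    ContinuousLinearMap.smulRight_apply, L_comm v a, L_comm y a]

theorem W_zero (v : Eu n) : W v 0 = 0 := by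
  ext1 a
  rw [W_apply]
  simp

theorem W_skew (v y a b : Eu n) : L b (W v y a) + L a (W v y b) = 0 := by
  rw [W_apply, W_apply, map_sub, map_sub, map_smul, map_smul, map_smul, map_smul]
  simp only [smul_eq_mul]
  ring

theorem W_smooth {E : Type} [NormedAddCommGroup E] [NormedSpace ℝ E] {f g : E → Eu n}
    (hf : ContDiff ℝ ∞ f) (hg : ContDiff ℝ ∞ g) : ContDiff ℝ ∞ (fun e => W (f e) (g e)) := by
  unfold W
  exact ((L_smooth hf).smulRight hg).sub ((L_smooth hg).smulRight hf)

/-- The integrand. -/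
def G (m : ℕ) (z : Eu n) (Y : ℝ × ℝ → Eu n → Eu n) (p : ((ℝ × ℝ) × Eu n) × ℝ) :
    Eu n →L[ℝ] Eu n :=
  p.2 ^ m • W (p.1.2 - z) (Y p.1.1 (z + p.2 • (p.1.2 - z)))

theorem G_smooth (m : ℕ) (z : Eu n) {Y : ℝ × ℝ → Eu n → Eu n}
    (hY : ContDiff ℝ ∞ (fun q : (ℝ × ℝ) × Eu n => Y q.1 q.2)) : ContDiff ℝ ∞ (G m z Y) := by
  have h1 : ContDiff ℝ ∞ (fun p : ((ℝ × ℝ) × Eu n) × ℝ => p.1.2 - z) :=
    (contDiff_snd.comp contDiff_fst).sub contDiff_const
  have h2 : ContDiff ℝ ∞ (fun p : ((ℝ × ℝ) × Eu n) × ℝ => Y p.1.1 (z + p.2 • (p.1.2 - z))) := by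
    have h3 : ContDiff ℝ ∞ (fun p : ((ℝ × ℝ) × Eu n) × ℝ =>
        ((p.1.1, z + p.2 • (p.1.2 - z)) : (ℝ × ℝ) × Eu n)) :=
      (contDiff_fst.comp contDiff_fst).prodMk (contDiff_const.add (contDiff_snd.smul h1))
    exact hY.comp h3
  exact (contDiff_snd.pow m).smul (W_smooth h1 h2)

theorem G_apply (m : ℕ) (z : Eu n) (Y : ℝ × ℝ → Eu n → Eu n) (q : ℝ × ℝ) (y : Eu n) (s : ℝ)
    (a : Eu n) : G m z Y ((q, y), s) a = s ^ m • (L a (y - z) • Y q (z + s • (y - z)) -
      L a (Y q (z + s • (y - z))) • (y - z)) := by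
  show s ^ m • (W (y - z) (Y q (z + s • (y - z))) a) = _
  rw [W_apply]

/-- Derivative of a parametric integral, evaluated. -/
theorem param_apply {E F H : Type} [NormedAddCommGroup E] [NormedSpace ℝ E]
    [FiniteDimensional ℝ E] [NormedAddCommGroup F] [NormedSpace ℝ F] [CompleteSpace F]
    [NormedAddCommGroup H] [NormedSpace ℝ H] [CompleteSpace H] (G : E × ℝ → F)
    (hG : ContDiff ℝ ∞ G) (x h : E) (T : F →L[ℝ] H) :
    T (fderiv ℝ (fun y => ∫ s in (0 : ℝ)..1, G (y, s)) x h) =
      ∫ s in (0 : ℝ)..1, T (fderiv ℝ (fun y => G (y, s)) x h) := by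
  have hc : Continuous (fun s : ℝ =>
      (fderiv ℝ G (x, s)).comp (ContinuousLinearMap.inl ℝ E ℝ)) :=
    ((hG.continuous_fderiv (by simp)).comp (continuous_const.prodMk continuous_id)).clm_comp
      continuous_const
  have hc2 : Continuous (fun s : ℝ =>
      ((fderiv ℝ G (x, s)).comp (ContinuousLinearMap.inl ℝ E ℝ)) h) :=
    hc.clm_apply continuous_const
  rw [(StreamA.param_fderiv G hG x).fderiv,
    ContinuousLinearMap.intervalIntegral_apply (hc.intervalIntegrable _ _),
    ← T.intervalIntegral_comp_comm (hc2.intervalIntegrable _ _)]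
  refine intervalIntegral.integral_congr fun s _ => ?_
  have h4 : HasFDerivAt (fun y : E => (y, s)) (ContinuousLinearMap.inl ℝ E ℝ) x :=
    (hasFDerivAt_id x).prodMk (hasFDerivAt_const s x)
  have h5 := ((hG.differentiable (by simp)) (x, s)).hasFDerivAt.comp x h4
  have h6 : fderiv ℝ (fun y => G (y, s)) x =
      (fderiv ℝ G (x, s)).comp (ContinuousLinearMap.inl ℝ E ℝ) := h5.fderiv
  simp only [h6]

theorem G_cont (m : ℕ) (z : Eu n) {Y : ℝ × ℝ → Eu n → Eu n}
    (hY : ContDiff ℝ ∞ (fun q : (ℝ × ℝ) × Eu n => Y q.1 q.2)) (q : ℝ × ℝ) (x : Eu n) :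
    Continuous (fun s : ℝ => G m z Y ((q, x), s)) :=
  (G_smooth m z hY).continuous.comp (continuous_const.prodMk continuous_id)

/-- Derivative of the integrand, evaluated. -/
theorem f_deriv (m : ℕ) (z : Eu n) {V : Eu n → Eu n} (hV : ContDiff ℝ ∞ V) (s : ℝ) (x a : Eu n) :
    HasFDerivAt (fun y : Eu n => s ^ m • (L a (y - z) • V (z + s • (y - z)) -
        L a (V (z + s • (y - z))) • (y - z)))
      (s ^ m • ((L a (x - z) • (s • fderiv ℝ V (z + s • (x - z))) +
        (L a).smulRight (V (z + s • (x - z)))) -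
        (L a (V (z + s • (x - z))) • ContinuousLinearMap.id ℝ (Eu n) +
          ((L a).comp (s • fderiv ℝ V (z + s • (x - z)))).smulRight (x - z)))) x := by
  have hu : HasFDerivAt (fun y : Eu n => y - z) (ContinuousLinearMap.id ℝ (Eu n)) x :=
    (hasFDerivAt_id x).sub_const z
  have hs : HasFDerivAt (fun y : Eu n => z + s • (y - z))
      (s • ContinuousLinearMap.id ℝ (Eu n)) x := (hu.const_smul s).const_add z
  have hVs : HasFDerivAt (fun y : Eu n => V (z + s • (y - z)))
      (s • fderiv ℝ V (z + s • (x - z))) x := by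
    have h := ((hV.differentiable (by simp)) (z + s • (x - z))).hasFDerivAt.comp x hs
    rw [ContinuousLinearMap.comp_smul, ContinuousLinearMap.comp_id] at h
    exact h
  have h1 : HasFDerivAt (fun y : Eu n => L a (y - z)) (L a) x := by
    have h := (L a).hasFDerivAt.comp x hu
    rw [ContinuousLinearMap.comp_id] at h
    exact h
  have h2 : HasFDerivAt (fun y : Eu n => L a (V (z + s • (y - z))))
      ((L a).comp (s • fderiv ℝ V (z + s • (x - z)))) x := (L a).hasFDerivAt.comp x hVs
  exact ((h1.smul hVs).sub (h2.smul hu)).const_smul (s ^ m)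

/-- The sum of the diagonal derivatives of the integrand. -/
theorem sum_f (m : ℕ) (hm : n = m + 2) (z : Eu n) {V : Eu n → Eu n} (s : ℝ) (x : Eu n)
    (hd : ∀ y, divg V y = 0) :
    ∑ j, (s ^ m • ((L (ev j) (x - z) • (s • fderiv ℝ V (z + s • (x - z))) +
        (L (ev j)).smulRight (V (z + s • (x - z)))) -
        (L (ev j) (V (z + s • (x - z))) • ContinuousLinearMap.id ℝ (Eu n) +
          ((L (ev j)).comp (s • fderiv ℝ V (z + s • (x - z)))).smulRight (x - z)))) (ev j) =
      ((m + 1 : ℝ) * s ^ m) • V (z + s • (x - z)) +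
        s ^ (m + 1) • fderiv ℝ V (z + s • (x - z)) (x - z) := by
  set D := fderiv ℝ V (z + s • (x - z)) with hD
  set v := x - z with hv
  set y := V (z + s • v) with hy
  have e1 : ∀ j : Fin n, (s ^ m • ((L (ev j) v • (s • D) + (L (ev j)).smulRight y) -
      (L (ev j) y • ContinuousLinearMap.id ℝ (Eu n) +
        ((L (ev j)).comp (s • D)).smulRight v))) (ev j) =
      s ^ (m + 1) • D (v j • ev j) + s ^ m • y - s ^ m • (y j • ev j) -
        s ^ (m + 1) • ((D (ev j)) j • v) := by
    intro j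
    have e2 : (ev j : Eu n) j = 1 := by simp [ev]
    simp only [smul_apply, sub_apply,
      add_apply, ContinuousLinearMap.smulRight_apply,
      ContinuousLinearMap.comp_apply, ContinuousLinearMap.id_apply, L_ev, e2, map_smul,
      smul_eq_mul]
    module
  rw [Finset.sum_congr rfl fun j _ => e1 j]
  have e3 : ∀ w : Eu n, ∑ j : Fin n, w j • (ev j : Eu n) = w := by
    intro w
    ext i
    simp [ev, Pi.single_apply]
  have e5 : ∑ j : Fin n, (D (ev j)) j = 0 := hd (z + s • v)
  rw [Finset.sum_sub_distrib, Finset.sum_sub_distrib, Finset.sum_add_distrib]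
  simp only [← Finset.smul_sum, ← Finset.sum_smul, ← map_sum]
  rw [e3 v, e3 y, e5, Finset.sum_const, Finset.card_univ, Fintype.card_fin,
    ← Nat.cast_smul_eq_nsmul ℝ, show ((n : ℕ) : ℝ) = (m : ℝ) + 2 by rw [hm]; push_cast; ring]
  module

theorem line_deriv (m : ℕ) (z : Eu n) {V : Eu n → Eu n} (hV : ContDiff ℝ ∞ V) (v : Eu n) (s : ℝ) :
    HasDerivAt (fun s : ℝ => s ^ (m + 1) • V (z + s • v))
      (((m + 1 : ℝ) * s ^ m) • V (z + s • v) + s ^ (m + 1) • fderiv ℝ V (z + s • v) v) s := by
  have h1 : HasDerivAt (fun s : ℝ => z + s • v) v s := by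
    simpa using ((hasDerivAt_id s).smul_const v).const_add z
  have h2 : HasDerivAt (fun s : ℝ => V (z + s • v)) (fderiv ℝ V (z + s • v) v) s :=
    ((hV.differentiable (by simp)) _).hasFDerivAt.comp_hasDerivAt s h1
  have h3 : HasDerivAt (fun s : ℝ => s ^ (m + 1)) ((m + 1 : ℝ) * s ^ m) s := by
    simpa using hasDerivAt_pow (m + 1) s
  exact (h3.smul h2).congr_deriv (add_comm _ _)

end PotA

open PotA in
theorem lp_pot : LPPot := by
  intro n hn Y hY hdiv z
  obtain ⟨m, hm⟩ : ∃ m, n = m + 2 := ⟨n - 2, by omega⟩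
  have hYq : ∀ q, ContDiff ℝ ∞ (Y q) := fun q =>
    hY.comp (contDiff_const.prodMk contDiff_id)
  refine ⟨fun q x => ∫ s in (0 : ℝ)..1, G m z Y ((q, x), s), ?_, ?_, ?_, ?_⟩
  · exact StreamA.param_contDiff (G m z Y) (G_smooth m z hY)
  · intro q x a b
    have h1 := ((L b).comp (ContinuousLinearMap.apply ℝ (Eu n) a) +
      (L a).comp (ContinuousLinearMap.apply ℝ (Eu n) b)).intervalIntegral_comp_comm
      ((G_cont m z hY q x).intervalIntegrable (μ := volume) 0 1)
    have h2 : ∀ s : ℝ, ((L b).comp (ContinuousLinearMap.apply ℝ (Eu n) a) +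
      (L a).comp (ContinuousLinearMap.apply ℝ (Eu n) b)) (G m z Y ((q, x), s)) = 0 := by
      intro s
      simp only [G, add_apply, ContinuousLinearMap.comp_apply,
        ContinuousLinearMap.apply_apply, map_smul]
      rw [W_skew, smul_zero]
    simp only [h2, intervalIntegral.integral_zero] at h1
    simp only [add_apply, ContinuousLinearMap.comp_apply,
      ContinuousLinearMap.apply_apply, L_inner] at h1
    rw [real_inner_comm]
    linarith
  · intro q x
    have hG : ContDiff ℝ ∞ (fun p : Eu n × ℝ => G m z Y ((q, p.1), p.2)) :=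
      (G_smooth m z hY).comp ((contDiff_const.prodMk contDiff_fst).prodMk contDiff_snd)
    have hz : ∀ j : Fin n, ((fderiv ℝ (fun x => ∫ s in (0 : ℝ)..1, G m z Y ((q, x), s)) x)
        (ev j)) (ev j) = ∫ s in (0 : ℝ)..1,
          (ContinuousLinearMap.apply ℝ (Eu n) (ev j : Eu n))
            (fderiv ℝ (fun y => G m z Y ((q, y), s)) x (ev j)) := fun j =>
      param_apply (fun p : Eu n × ℝ => G m z Y ((q, p.1), p.2)) hG x (ev j)
        (ContinuousLinearMap.apply ℝ (Eu n) (ev j : Eu n))
    have hf : ∀ (j : Fin n) (s : ℝ), (ContinuousLinearMap.apply ℝ (Eu n) (ev j : Eu n))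
            (fderiv ℝ (fun y => G m z Y ((q, y), s)) x (ev j)) =
          (s ^ m • ((L (ev j) (x - z) • (s • fderiv ℝ (Y q) (z + s • (x - z))) +
        (L (ev j)).smulRight (Y q (z + s • (x - z)))) -
        (L (ev j) (Y q (z + s • (x - z))) • ContinuousLinearMap.id ℝ (Eu n) +
          ((L (ev j)).comp (s • fderiv ℝ (Y q) (z + s • (x - z)))).smulRight (x - z))))
          (ev j) := by
      intro j s
      have h4 : HasFDerivAt (fun y : Eu n => G m z Y ((q, y), s))
          (fderiv ℝ (fun y => G m z Y ((q, y), s)) x) x := by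
        have hs : ContDiff ℝ ∞ (fun y : Eu n => G m z Y ((q, y), s)) :=
          hG.comp (contDiff_id.prodMk contDiff_const)
        exact ((hs.differentiable (by simp)) x).hasFDerivAt
      have h6 := (ContinuousLinearMap.apply ℝ (Eu n) (ev j : Eu n)).hasFDerivAt.comp x h4
      have h7 := f_deriv m z (hYq q) s x (ev j)
      have h8 : (fun y : Eu n => s ^ m • (L (ev j) (y - z) • Y q (z + s • (y - z)) -
          L (ev j) (Y q (z + s • (y - z))) • (y - z))) =
          (⇑(ContinuousLinearMap.apply ℝ (Eu n) (ev j : Eu n)) ∘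
            (fun y : Eu n => G m z Y ((q, y), s))) := by
        funext y
        rw [Function.comp_apply, ContinuousLinearMap.apply_apply, G_apply]
      rw [h8] at h7
      have h9 := congrArg (fun T : Eu n →L[ℝ] Eu n => T (ev j)) (h6.unique h7)
      simpa only [ContinuousLinearMap.comp_apply] using h9
    have hci : ∀ j : Fin n, IntervalIntegrable (fun s : ℝ =>
        (ContinuousLinearMap.apply ℝ (Eu n) (ev j : Eu n))
            (fderiv ℝ (fun y => G m z Y ((q, y), s)) x (ev j))) volume 0 1 := by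
      intro j
      apply Continuous.intervalIntegrable
      simp only [hf]
      have hl : Continuous (fun s : ℝ => z + s • (x - z)) := by fun_prop
      have hy := (hYq q).continuous.comp hl
      have hf' : Continuous (fun s : ℝ => fderiv ℝ (Y q) (z + s • (x - z)) (ev j)) :=
        (((hYq q).continuous_fderiv (by simp)).comp hl).clm_apply continuous_const
      have hy' : Continuous (fun s : ℝ => Y q (z + s • (x - z))) := hy
      have hLy : Continuous (fun s : ℝ => L (ev j) (Y q (z + s • (x - z)))) :=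
        (L (ev j)).continuous.comp hy'
      have hLf : Continuous (fun s : ℝ => L (ev j) (s • fderiv ℝ (Y q) (z + s • (x - z)) (ev j))) :=
        (L (ev j)).continuous.comp (continuous_id.smul hf')
      exact (continuous_pow m).smul (((continuous_const.smul (continuous_id.smul hf')).add
        (continuous_const.smul hy')).sub ((hLy.smul continuous_const).add
          (hLf.smul continuous_const)))
    have h1 : dv (fun x => ∫ s in (0 : ℝ)..1, G m z Y ((q, x), s)) x =
        ∑ j, ((fderiv ℝ (fun x => ∫ s in (0 : ℝ)..1, G m z Y ((q, x), s)) x) (ev j)) (ev j) := rfl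
    show dv (fun x => ∫ s in (0 : ℝ)..1, G m z Y ((q, x), s)) x = Y q x
    rw [h1, Finset.sum_congr rfl fun j _ => hz j, ← intervalIntegral.integral_finsetSum
      fun j _ => hci j]
    have h3 : ∀ s : ℝ, ∑ j : Fin n, (ContinuousLinearMap.apply ℝ (Eu n) (ev j : Eu n))
            (fderiv ℝ (fun y => G m z Y ((q, y), s)) x (ev j)) =
        ((m + 1 : ℝ) * s ^ m) • Y q (z + s • (x - z)) +
          s ^ (m + 1) • fderiv ℝ (Y q) (z + s • (x - z)) (x - z) := by
      intro s
      rw [← sum_f m hm z s x (hdiv q)]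
      exact Finset.sum_congr rfl fun j _ => hf j s
    simp only [h3]
    have h10 : Continuous (fun s : ℝ => ((m + 1 : ℝ) * s ^ m) • Y q (z + s • (x - z)) +
          s ^ (m + 1) • fderiv ℝ (Y q) (z + s • (x - z)) (x - z)) := by
      have hl : Continuous (fun s : ℝ => z + s • (x - z)) := by fun_prop
      have hy := (hYq q).continuous.comp hl
      have hf := ((hYq q).continuous_fderiv (by simp)).comp hl
      exact ((continuous_const.mul (continuous_pow m)).smul hy).add
        ((continuous_pow (m + 1)).smul (hf.clm_apply continuous_const))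
    rw [intervalIntegral.integral_eq_sub_of_hasDerivAt
      (fun s _ => line_deriv m z (hYq q) (x - z) s) (h10.intervalIntegrable 0 1)]
    simp
  · intro q r h0 x hx
    have h1 : ∀ s ∈ Set.uIcc (0 : ℝ) 1, G m z Y ((q, x), s) = 0 := by
      intro s hs
      rw [Set.uIcc_of_le zero_le_one] at hs
      have h2 : Y q (z + s • (x - z)) = 0 := by
        apply h0
        rw [add_sub_cancel_left, norm_smul, Real.norm_eq_abs, abs_of_nonneg hs.1]
        exact (mul_le_of_le_one_left (norm_nonneg _) hs.2).trans hx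
      ext1 a
      rw [G_apply, h2]
      simp
    show (∫ s in (0 : ℝ)..1, G m z Y ((q, x), s)) = 0
    rw [intervalIntegral.integral_congr h1, intervalIntegral.integral_zero]

end

end Pool.Agent.H6.ST
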