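import Pool.Agent.H6.ST.LP.Defs
import Pool.Agent.H68.VD.Fam
import Pool.Agent.H68.VD.VelDiv

/-! # The velocity in source coordinates is divergence free (ST-LP5) -/

namespace Pool.Agent.H6.ST

open MeasureTheory Set Pool.Agent.H68.VD Pool.Agent.H68.GM
open scoped ENNReal ContDiff

noncomputable section

/-- the velocity of the inverse path as a partial derivative of the inverse family -/
theorem lp5_vel {n : ℕ} {g : ℝ × ℝ → Eu n → Eu n} (hg : VF g)
    (hI : VF (fun q => Function.invFun (g q))) (u t : ℝ) (x : Eu n) :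
    vel (fun τ => Function.invFun (g (τ, t))) u x =
      fderiv ℝ (fun p : (ℝ × ℝ) × Eu n => Function.invFun (g p.1) p.2) ((u, t), g (u, t) x)
        (((1 : ℝ), (0 : ℝ)), (0 : Eu n)) := by
  have h0 : Function.invFun (Function.invFun (g (u, t))) x = g (u, t) x := by
    apply (hI.bij (u, t)).1
    have h1 : Function.invFun (g (u, t)) (Function.invFun (Function.invFun (g (u, t))) x) = x :=
      Function.rightInverse_invFun (hI.bij (u, t)).2 x
    have h2 : Function.invFun (g (u, t)) (g (u, t) x) = x :=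
      Function.leftInverse_invFun (hg.bij (u, t)).1 x
    exact h1.trans h2.symm
  have h1 : HasDerivAt (fun τ : ℝ => ((τ, t), g (u, t) x)) (((1 : ℝ), (0 : ℝ)), (0 : Eu n)) u :=
    ((hasDerivAt_id u).prodMk (hasDerivAt_const u t)).prodMk (hasDerivAt_const u _)
  have h2 := ((hI.smooth.differentiable (by simp)) ((u, t), g (u, t) x)).hasFDerivAt.comp_hasDerivAt
    u h1
  have h3 : vel (fun τ => Function.invFun (g (τ, t))) u x =
      deriv (fun τ => Function.invFun (g (τ, t)) (g (u, t) x)) u := by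
    unfold vel
    rw [h0]
  rw [h3]
  exact h2.deriv

theorem lp_pull : LPPull := by
  intro n g hg
  have hI : VF (fun q => Function.invFun (g q)) := famKit.inv n _ (ℝ × ℝ) g hg
  have hline : ∀ t : ℝ, ContDiff ℝ ∞ (fun τ : ℝ => ((τ, t) : ℝ × ℝ)) := fun t =>
    contDiff_id.prodMk contDiff_const
  have hφ : ∀ t : ℝ, IsPath (⊥ : Subgroup (Eu n ≃ᵃ[ℝ] Eu n)) (fun τ => g (τ, t)) := fun t =>
    famKit.re n _ (ℝ × ℝ) ℝ g (fun τ => (τ, t)) hg (hline t)
  have hψ : ∀ t : ℝ, IsPath (⊥ : Subgroup (Eu n ≃ᵃ[ℝ] Eu n))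
      (fun τ => Function.invFun (g (τ, t))) := fun t =>
    famKit.re n _ (ℝ × ℝ) ℝ (fun q => Function.invFun (g q)) (fun τ => (τ, t)) hI (hline t)
  refine ⟨fun q x => -(fderiv ℝ (fun p : (ℝ × ℝ) × Eu n => Function.invFun (g p.1) p.2) (q, g q x)
    (((1 : ℝ), (0 : ℝ)), (0 : Eu n))), ?_, ?_, ?_⟩
  · have h1 : ContDiff ℝ ∞ (fderiv ℝ (fun p : (ℝ × ℝ) × Eu n => Function.invFun (g p.1) p.2)) :=
      hI.smooth.fderiv_right (by simp)
    have h2 : ContDiff ℝ ∞ (fun p : (ℝ × ℝ) × Eu n => (p.1, g p.1 p.2)) :=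
      contDiff_fst.prodMk hg.smooth
    exact ((h1.comp h2).clm_apply contDiff_const).neg
  · rintro ⟨u, t⟩ x
    have h1 := famKit.velComp n _ _ _ (hφ t) (hψ t) u x
    have h2 : (fun (τ : ℝ) (z : Eu n) => g (τ, t) (Function.invFun (g (τ, t)) z)) =
        fun (_ : ℝ) (z : Eu n) => z := by
      funext τ z
      exact Function.rightInverse_invFun (hg.bij (τ, t)).2 z
    have h3 : vel (fun (_ : ℝ) (z : Eu n) => z) u (g (u, t) x) = 0 := by
      unfold vel
      exact deriv_const _ _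
    rw [h2, h3] at h1
    have h4 := (famKit.velEq n _ _ (hφ t) u x).deriv
    rw [lp5_vel hg hI] at h1
    have h5 : fderiv ℝ (g (u, t)) x (-(fderiv ℝ (fun p : (ℝ × ℝ) × Eu n =>
        Function.invFun (g p.1) p.2) ((u, t), g (u, t) x) (((1 : ℝ), (0 : ℝ)), (0 : Eu n)))) =
        vel (fun τ => g (τ, t)) u (g (u, t) x) := by
      rw [map_neg]
      exact (eq_neg_of_add_eq_zero_left h1.symm).symm
    rw [← h4] at h5
    exact h5
  · rintro ⟨u, t⟩ x
    have h1 : (fun x : Eu n => -(fderiv ℝ (fun p : (ℝ × ℝ) × Eu n =>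
        Function.invFun (g p.1) p.2) ((u, t), g (u, t) x) (((1 : ℝ), (0 : ℝ)), (0 : Eu n)))) =
        fun x => -(vel (fun τ => Function.invFun (g (τ, t))) u x) := by
      funext z
      rw [lp5_vel hg hI]
    have h2 := velDiv famKit n _ _ (hψ t) u x
    unfold divg
    simp only [h1]
    have h3 : fderiv ℝ (fun x => -(vel (fun τ => Function.invFun (g (τ, t))) u x)) x =
        -(fderiv ℝ (vel (fun τ => Function.invFun (g (τ, t))) u) x) := fderiv_fun_neg
    rw [h3]
    have h4 : ∀ j, ((-(fderiv ℝ (vel (fun τ => Function.invFun (g (τ, t))) u) x)) (ev j)) j =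
        -((fderiv ℝ (vel (fun τ => Function.invFun (g (τ, t))) u) x (ev j)) j) := fun j => rfl
    simp only [h4, Finset.sum_neg_distrib]
    rw [h2, neg_zero]

end

end Pool.Agent.H6.ST
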