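import Pool.Agent.H6.ST.LP.Defs

/-! # The sharp trichotomy (ST): isotopies rel small balls in the lattice case -/

namespace Pool.Agent.H6.ST

open MeasureTheory Set Pool.Agent.H68.VD Pool.Agent.H68.GM
open scoped ENNReal ContDiff

noncomputable section

/-- An open box is open. -/
theorem lpt_isOpen {n : ℕ} (a b : Fin n → ℝ) : IsOpen (obox a b) := by
  have h1 : obox a b = ⋂ k : Fin n, {x : Eu n | a k < x k ∧ x k < b k} := by
    ext x
    simp only [obox, Set.mem_iInter]
    rfl
  rw [h1]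
  refine isOpen_iInter_of_finite fun k => ?_
  have h2 : Continuous (fun x : Eu n => x k) := by fun_prop
  exact (isOpen_lt continuous_const h2).inter (isOpen_lt h2 continuous_const)

/-- An open box is convex. -/
theorem lpt_convex {n : ℕ} (a b : Fin n → ℝ) : Convex ℝ (obox a b) := by
  intro x hx y hy s t hs ht hst k
  have h1 := hx k
  have h2 := hy k
  have h3 : (s • x + t • y) k = s * x k + t * y k := by simp
  have h4 : a k = s * a k + t * a k := by rw [← add_mul, hst, one_mul]
  have h5 : b k = s * b k + t * b k := by rw [← add_mul, hst, one_mul]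
  rw [h3]
  rcases eq_or_lt_of_le hs with h0 | h0
  · have ht1 : t = 1 := by linarith
    subst ht1
    rw [← h0]
    constructor <;> linarith [h2.1, h2.2]
  · constructor
    · nlinarith [mul_lt_mul_of_pos_left h1.1 h0, mul_le_mul_of_nonneg_left h2.1.le ht]
    · nlinarith [mul_lt_mul_of_pos_left h1.2 h0, mul_le_mul_of_nonneg_left h2.2.le ht]

theorem lpt_ctr {n : ℕ} (c : Fin n → ℤ) (k : Fin n) : (ctr c : Eu n) k = (c k : ℝ) + 1 / 2 := rfl

/-- The balls around the centres are in the cores. -/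
theorem lpt_core {n : ℕ} {θ : ℝ} (c : Fin n → ℤ) (x : Eu n) (h : ‖x - ctr c‖ ≤ 1 / 2 - θ) :
    x ∈ core θ c := by
  intro k
  have h1 : ‖(x - ctr c) k‖ ≤ ‖x - ctr c‖ := PiLp.norm_apply_le _ k
  have h2 : (x - ctr c) k = x k - ((c k : ℝ) + 1 / 2) := rfl
  rw [h2, Real.norm_eq_abs] at h1
  exact h1.trans h

/-- A lattice map with the trivial permutation is the identity on all cores of big cells. -/
theorem lpt_id {L : ℕ} {θ : ℝ} {w : Eu 4 → Eu 4} (hθ : 0 < θ) (hS : Stb L θ w 1)
    (c : Fin 4 → ℤ) (hc : BigCell L c) (x : Eu 4) (hx : x ∈ core θ c) : w x = x := by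
  by_cases h : ∀ k, 1 ≤ c k ∧ c k < (NN L : ℤ) - 1
  · have hN : (NN L : ℤ) = 2 ^ L + 2 := by simp [NN]
    let i : Cell L := fun k => ⟨(c k - 1).toNat, by
      have h1 := h k
      rw [hN] at h1
      have h2 : (((c k - 1).toNat : ℕ) : ℤ) = c k - 1 := Int.toNat_of_nonneg (by omega)
      have h3 : (((c k - 1).toNat : ℕ) : ℤ) < ((2 ^ L : ℕ) : ℤ) := by
        rw [h2]; push_cast; omega
      exact_mod_cast h3⟩
    have hi : pos i = c := by
      funext k
      have h1 := h k
      change (((c k - 1).toNat : ℕ) : ℤ) + 1 = c k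
      rw [Int.toNat_of_nonneg (by omega)]
      ring
    have h1 := hS.rigid i x (by rw [hi]; exact hx)
    rw [h1]
    simp
  · obtain ⟨K, _, hK1, hK2⟩ := hS.inner
    apply hK2
    intro hxK
    have hin := hK1 hxK
    push Not at h
    obtain ⟨k, hk⟩ := h
    have h1 := hx k
    have h2 := hin k
    rw [abs_le] at h1
    have h3 := hc k
    by_cases h4 : 1 ≤ c k
    · have h5 : c k = (NN L : ℤ) - 1 := by
        have := hk h4
        omega
      have h6 : (c k : ℝ) = (NN L : ℝ) - 1 := by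
        rw [h5]; push_cast; ring
      rw [h6] at h1
      linarith [h1.1, h2.2]
    · have h5 : c k = 0 := by omega
      rw [h5] at h1
      push_cast at h1
      linarith [h1.2, h2.1]

/-- The relative isotopies of the lattice maps. -/
theorem lp_thm (h : LPGen) : LPthm := by
  intro L θ w hθ hθ1 hS
  obtain ⟨Φ, hΦ, hH⟩ := hS.path
  let E : Fin (Fintype.card (Fin 4 → Fin (NN L))) ≃ (Fin 4 → Fin (NN L)) :=
    (Fintype.equivFin (Fin 4 → Fin (NN L))).symm
  let cc : Fin (Fintype.card (Fin 4 → Fin (NN L))) → Fin 4 → ℤ := fun i k => ((E i k : ℕ) : ℤ)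
  have hcc : ∀ i, BigCell L (cc i) := by
    intro i k
    have h1 := (E i k).isLt
    exact ⟨Int.natCast_nonneg _, Int.ofNat_lt.2 h1⟩
  have hsurj : ∀ c, BigCell L c → ∃ i, cc i = c := by
    intro c hc
    refine ⟨E.symm (fun k => ⟨(c k).toNat, ?_⟩), ?_⟩
    · have h1 := hc k
      have h2 : (((c k).toNat : ℕ) : ℤ) = c k := Int.toNat_of_nonneg h1.1
      have h3 : (((c k).toNat : ℕ) : ℤ) < (NN L : ℤ) := by rw [h2]; exact h1.2
      exact_mod_cast h3
    · funext k
      change (((E (E.symm _)) k : ℕ) : ℤ) = c k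
      rw [Equiv.apply_symm_apply]
      exact Int.toNat_of_nonneg (hc k).1
  have hinj : Function.Injective (fun i => (ctr (cc i) : Eu 4)) := by
    intro i j hij
    apply E.injective
    funext k
    have h1 : (ctr (cc i) : Eu 4) k = (ctr (cc j) : Eu 4) k := by
      have := hij
      simp only at this
      rw [this]
    rw [lpt_ctr, lpt_ctr] at h1
    have h2 : ((cc i k : ℤ) : ℝ) = ((cc j k : ℤ) : ℝ) := by linarith
    have h3 : cc i k = cc j k := by exact_mod_cast h2
    have h4 : (E i k : ℕ) = (E j k : ℕ) := Int.ofNat_inj.1 h3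
    exact Fin.ext h4
  have hU : ∀ i, (ctr (cc i) : Eu 4) ∈ bigC L := by
    intro i k
    have h1 := hcc i k
    rw [lpt_ctr]
    have h2 : (0 : ℝ) ≤ (cc i k : ℝ) := by exact_mod_cast h1.1
    have h3 : (cc i k : ℝ) + 1 ≤ (NN L : ℝ) := by
      have h4 : cc i k + 1 ≤ (NN L : ℤ) := h1.2
      exact_mod_cast h4
    constructor
    · linarith
    · linarith
  obtain ⟨Φ', r, hP, hr, hΦ'⟩ := h 4 _ (by norm_num) (bigC L) (lpt_isOpen _ _) (lpt_convex _ _)
    (fun i => ctr (cc i)) (1 / 2 - θ) hinj hU (by linarith) w Φ hΦ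
    (fun i x hx => lpt_id hθ hS (cc i) (hcc i) x (lpt_core (cc i) x hx))
    (fun i => hH (cc i) (hcc i))
  refine ⟨Φ', r, hP, hr, ?_⟩
  intro t c hc x hx
  obtain ⟨i, rfl⟩ := hsurj c hc
  exact hΦ' t i x hx

end

end Pool.Agent.H6.ST
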