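import Pool.Agent.H6.ST.LP.Defs
import Pool.Agent.H68.VD.Stream

/-! # The sharp trichotomy (ST): the zoom of a family at a point -/

namespace Pool.Agent.H6.ST

open MeasureTheory Set Pool.Agent.H68.VD Pool.Agent.H68.GM
open scoped ENNReal ContDiff

noncomputable section

theorem lp_zoom : LPZoom := by
  intro n Φ hΦ z
  have hsm : ∀ t, ContDiff ℝ ∞ (Φ t) := fun t =>
    hΦ.smooth.comp (contDiff_const.prodMk contDiff_id)
  have hdf : ∀ t, Differentiable ℝ (Φ t) := fun t => (hsm t).differentiable (by simp)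
  let G : ((ℝ × ℝ) × Eu n) × ℝ → Eu n := fun p =>
    fderiv ℝ (Φ p.1.1.2) (z + (p.2 * p.1.1.1) • (p.1.2 - z)) (p.1.2 - z)
  have hG : ContDiff ℝ ∞ G := by
    have h1 : ContDiff ℝ ∞ (fun p : ((ℝ × ℝ) × Eu n) × ℝ =>
        fderiv ℝ (Φ p.1.1.2) (z + (p.2 * p.1.1.1) • (p.1.2 - z))) := by
      refine ContDiff.fderiv (m := ∞) (n := ∞)
        (f := fun (p : ((ℝ × ℝ) × Eu n) × ℝ) (y : Eu n) => Φ p.1.1.2 y)
        (g := fun p : ((ℝ × ℝ) × Eu n) × ℝ => z + (p.2 * p.1.1.1) • (p.1.2 - z)) ?_ ?_ (by simp)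
      · exact hΦ.smooth.comp (((contDiff_snd.comp (contDiff_fst.comp
          (contDiff_fst.comp contDiff_fst))).prodMk contDiff_snd))
      · fun_prop
    have h2 : ContDiff ℝ ∞ (fun p : ((ℝ × ℝ) × Eu n) × ℝ => p.1.2 - z) := by fun_prop
    exact h1.clm_apply h2
  let Z : ℝ × ℝ → Eu n → Eu n := fun q x => ∫ s in (0 : ℝ)..1, G ((q, x), s)
  have hZsm : ContDiff ℝ ∞ (fun p : (ℝ × ℝ) × Eu n => Z p.1 p.2) :=
    StreamA.param_contDiff G hG
  have hZ0 : ∀ t x, Z (0, t) x = fderiv ℝ (Φ t) z (x - z) := by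
    intro t x
    show ∫ s in (0 : ℝ)..1, fderiv ℝ (Φ t) (z + (s * 0) • (x - z)) (x - z) = _
    simp
  have hZe : ∀ e t x, e ≠ 0 → Z (e, t) x = e⁻¹ • (Φ t (z + e • (x - z)) - Φ t z) := by
    intro e t x he
    have h1 : ∀ s ∈ Set.uIcc (0 : ℝ) 1, HasDerivAt (fun s : ℝ =>
        e⁻¹ • Φ t (z + (s * e) • (x - z))) (G (((e, t), x), s)) s := by
      intro s _
      have h2 : HasDerivAt (fun s : ℝ => z + (s * e) • (x - z)) (e • (x - z)) s := by
        have h3 : HasDerivAt (fun s : ℝ => s * e) e s := by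
          simpa using (hasDerivAt_id s).mul_const e
        exact (h3.smul_const (x - z)).const_add z
      have h4 : HasDerivAt (fun s : ℝ => e⁻¹ • Φ t (z + (s * e) • (x - z)))
          (e⁻¹ • fderiv ℝ (Φ t) (z + (s * e) • (x - z)) (e • (x - z))) s :=
        ((hdf t _).hasFDerivAt.comp_hasDerivAt s h2).const_smul e⁻¹
      refine h4.congr_deriv ?_
      show _ = fderiv ℝ (Φ t) (z + (s * e) • (x - z)) (x - z)
      rw [map_smul, smul_smul, inv_mul_cancel₀ he, one_smul]
    have h5 : IntervalIntegrable (fun s => G (((e, t), x), s)) volume 0 1 :=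
      (hG.continuous.comp (continuous_const.prodMk continuous_id)).intervalIntegrable _ _
    have h6 := intervalIntegral.integral_eq_sub_of_hasDerivAt h1 h5
    show ∫ s in (0 : ℝ)..1, G (((e, t), x), s) = _
    rw [h6]
    simp [smul_sub]
  have hder0 : ∀ t x, HasFDerivAt (Z (0, t)) (fderiv ℝ (Φ t) z) x := by
    intro t x
    have h1 : Z (0, t) = fun x => fderiv ℝ (Φ t) z (x - z) := funext (hZ0 t)
    rw [h1]
    exact (fderiv ℝ (Φ t) z).hasFDerivAt.comp x ((hasFDerivAt_id x).sub_const z)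
  have hdere : ∀ e t x, e ≠ 0 →
      HasFDerivAt (Z (e, t)) (fderiv ℝ (Φ t) (z + e • (x - z))) x := by
    intro e t x he
    have h1 : Z (e, t) = fun x => e⁻¹ • (Φ t (z + e • (x - z)) - Φ t z) :=
      funext fun x => hZe e t x he
    rw [h1]
    have h2 : HasFDerivAt (fun x : Eu n => z + e • (x - z))
        (e • ContinuousLinearMap.id ℝ (Eu n)) x :=
      (((hasFDerivAt_id x).sub_const z).const_smul e).const_add z
    have h3 : HasFDerivAt (fun x : Eu n => e⁻¹ • (Φ t (z + e • (x - z)) - Φ t z))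
        (e⁻¹ • ((fderiv ℝ (Φ t) (z + e • (x - z))).comp
          (e • ContinuousLinearMap.id ℝ (Eu n)))) x :=
      (((hdf t _).hasFDerivAt.comp x h2).sub_const (Φ t z)).const_smul e⁻¹
    refine h3.congr_fderiv ?_
    ext1 v
    show e⁻¹ • (fderiv ℝ (Φ t) (z + e • (x - z))) (e • v) = _
    rw [map_smul, smul_smul, inv_mul_cancel₀ he, one_smul]
  have hbij : ∀ q, Function.Bijective (Z q) := by
    rintro ⟨e, t⟩
    rcases eq_or_ne e 0 with rfl | he
    · have h1 : Z (0, t) = fun x => fderiv ℝ (Φ t) z (x - z) := funext (hZ0 t)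
      rw [h1]
      have h2 : Function.Bijective (fderiv ℝ (Φ t) z) := by
        have h3 : IsUnit (LinearMap.det ((fderiv ℝ (Φ t) z : Eu n →L[ℝ] Eu n) : Eu n →ₗ[ℝ] Eu n)) := by
          have h4 := hΦ.det t z
          rw [ContinuousLinearMap.det] at h4
          rw [h4]
          exact isUnit_one
        have h5 := (LinearMap.isUnit_iff_isUnit_det _).2 h3
        exact (Module.End.isUnit_iff _).1 h5
      exact h2.comp (Equiv.subRight z).bijective
    · have h1 : Z (e, t) = (fun y => e⁻¹ • (y - Φ t z)) ∘ Φ t ∘ (fun x => z + e • (x - z)) :=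
        funext fun x => hZe e t x he
      rw [h1]
      refine Function.Bijective.comp ?_ ((hΦ.bij t).comp ?_)
      · refine Function.bijective_iff_has_inverse.2 ⟨fun y => e • y + Φ t z, fun y => ?_,
          fun y => ?_⟩
        · simp [smul_smul, mul_inv_cancel₀ he]
        · simp [smul_smul, inv_mul_cancel₀ he]
      · refine Function.bijective_iff_has_inverse.2 ⟨fun y => e⁻¹ • (y - z) + z, fun y => ?_,
          fun y => ?_⟩
        · simp [smul_smul, inv_mul_cancel₀ he]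
        · simp [smul_smul, mul_inv_cancel₀ he]
  refine ⟨Z, ⟨hZsm, hbij, ?_, ?_⟩, hZ0, hZe⟩
  · rintro ⟨e, t⟩ x
    rcases eq_or_ne e 0 with rfl | he
    · rw [(hder0 t x).fderiv]
      exact hΦ.det t z
    · rw [(hdere e t x he).fderiv]
      exact hΦ.det t _
  · intro e g hg x
    rw [Subgroup.mem_bot] at hg
    subst hg
    rfl

end

end Pool.Agent.H6.ST
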