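import Pool.Agent.H6.ST.St
import Pool.Agent.H68.VD.St

/-! # The sharp trichotomy (ST): relative isotopies, definitions and statements -/

namespace Pool.Agent.H6.ST

open MeasureTheory Set Pool.Agent.H68.VD Pool.Agent.H68.GM
open scoped ENNReal ContDiff

noncomputable section

/-- A smooth family of volume preserving diffeomorphisms of Euclidean space (no support condition). -/
abbrev VF {n : ℕ} {E : Type*} [NormedAddCommGroup E] [NormedSpace ℝ E] (g : E → Eu n → Eu n) : Prop :=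
  IsFam (⊥ : Subgroup (Eu n ≃ᵃ[ℝ] Eu n)) g

/-- The calculus of compactly supported families. -/
structure CFKit : Prop where
  inv : ∀ (n : ℕ) (U : Set (Eu n)) (E : Type) [NormedAddCommGroup E] [NormedSpace ℝ E]
    [CompleteSpace E] (F : E → Eu n → Eu n), CF U F → CF U (fun e => Function.invFun (F e))
  comp : ∀ (n : ℕ) (U : Set (Eu n)) (E : Type) [NormedAddCommGroup E] [NormedSpace ℝ E]
    (F G : E → Eu n → Eu n), CF U F → CF U G → CF U (fun e x => F e (G e x))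
  re : ∀ (n : ℕ) (U : Set (Eu n)) (E E' : Type) [NormedAddCommGroup E] [NormedSpace ℝ E]
    [NormedAddCommGroup E'] [NormedSpace ℝ E'] (F : E → Eu n → Eu n) (h : E' → E), CF U F →
    ContDiff ℝ ∞ h → CF U (fun e => F (h e))
  vf : ∀ (n : ℕ) (U : Set (Eu n)) (E : Type) [NormedAddCommGroup E] [NormedSpace ℝ E]
    (F : E → Eu n → Eu n), CF U F → VF F
  /-- Concatenation of paths. -/
  cat : ∀ (n : ℕ) (U : Set (Eu n)) (f g : Eu n → Eu n) (Φ Ψ : ℝ → Eu n → Eu n), CPath U f Φ →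
    CPath U g Ψ → CPath U (fun x => f (g x)) (fun t x => Φ (2 * t - 1) (Ψ (2 * t) x))
  /-- The inverse path. -/
  rev : ∀ (n : ℕ) (U : Set (Eu n)) (f : Eu n → Eu n) (Φ : ℝ → Eu n → Eu n), CPath U f Φ →
    CPath U (Function.invFun f) (fun t x => Φ (1 - t) (Function.invFun f x))

/-- Homotopy of the loops of the centres to constant loops, in the configuration space. -/
def LPCen : Prop := ∀ (n N : ℕ), 3 ≤ n → ∀ U : Set (Eu n), IsOpen U → Convex ℝ U →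
  ∀ (z : Fin N → Eu n) (Z : Fin N → ℝ → Eu n), Function.Injective z → (∀ i, z i ∈ U) →
  (∀ i, ContDiff ℝ ∞ (Z i)) → (∀ i t, Z i t ∈ U) → (∀ i, ∀ t ≤ 0, Z i t = z i) →
  (∀ i t, 1 ≤ t → Z i t = z i) → (∀ i j t, i ≠ j → Z i t ≠ Z j t) →
  ∃ c : Fin N → ℝ × ℝ → Eu n, (∀ i, ContDiff ℝ ∞ (c i)) ∧ (∀ i q, c i q ∈ U) ∧
    (∀ i j q, i ≠ j → c i q ≠ c j q) ∧ (∀ i, ∀ u ≤ 0, ∀ t, c i (u, t) = z i) ∧
    (∀ i u t, 1 ≤ u → c i (u, t) = Z i t) ∧ (∀ i u, ∀ t ≤ 0, c i (u, t) = z i) ∧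
    (∀ i u t, 1 ≤ t → c i (u, t) = z i)

/-- The zoom of a family at a point: it interpolates between the linear part and the family. -/
def LPZoom : Prop := ∀ (n : ℕ) (Φ : ℝ → Eu n → Eu n), VF Φ → ∀ z : Eu n,
  ∃ Z : ℝ × ℝ → Eu n → Eu n, VF Z ∧ (∀ t x, Z (0, t) x = fderiv ℝ (Φ t) z (x - z)) ∧
    ∀ e t x, e ≠ 0 → Z (e, t) x = e⁻¹ • (Φ t (z + e • (x - z)) - Φ t z)

/-- The germ families. -/
def LPGerm : Prop := ∀ (n : ℕ) (Φ : ℝ → Eu n → Eu n), VF Φ → (∀ t ≤ 0, ∀ x, Φ t x = x) →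
  (∀ t, 1 ≤ t → ∀ x, Φ t x = Φ 1 x) → ∀ (z : Eu n) (r₀ : ℝ), 0 < r₀ →
  (∀ x, ‖x - z‖ ≤ r₀ → Φ 1 x = x) → (∃ H, Contr (fun t => fderiv ℝ (Φ t) z) H) →
  ∀ c : ℝ × ℝ → Eu n, ContDiff ℝ ∞ c → (∀ u ≤ 0, ∀ t, c (u, t) = z) →
  (∀ u t, 1 ≤ u → c (u, t) = Φ t z) → (∀ u, ∀ t ≤ 0, c (u, t) = z) →
  (∀ u t, 1 ≤ t → c (u, t) = z) → ∃ g : ℝ × ℝ → Eu n → Eu n, VF g ∧
    (∀ u ≤ 0, ∀ t x, g (u, t) x = x) ∧ (∀ u t x, 1 ≤ u → g (u, t) x = Φ t x) ∧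
    (∀ u t, g (u, t) z = c (3 * u, t)) ∧
    ∀ u t x, t ∉ Set.Ioo (0 : ℝ) 1 → ‖x - z‖ ≤ r₀ → g (u, t) x = x

/-- The velocity in source coordinates is divergence free. -/
def LPPull : Prop := ∀ (n : ℕ) (g : ℝ × ℝ → Eu n → Eu n), VF g →
  ∃ Y : ℝ × ℝ → Eu n → Eu n, ContDiff ℝ ∞ (fun q : (ℝ × ℝ) × Eu n => Y q.1 q.2) ∧
    (∀ q x, fderiv ℝ (g q) x (Y q x) = deriv (fun u => g (u, q.2) x) q.1) ∧
    ∀ q x, divg (Y q) x = 0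

/-- The radial potential of a divergence free field, with parameters. -/
def LPPot : Prop := ∀ (n : ℕ), 2 ≤ n → ∀ Y : ℝ × ℝ → Eu n → Eu n,
  ContDiff ℝ ∞ (fun q : (ℝ × ℝ) × Eu n => Y q.1 q.2) → (∀ q x, divg (Y q) x = 0) → ∀ z : Eu n,
  ∃ A : ℝ × ℝ → Eu n → (Eu n →L[ℝ] Eu n),
    ContDiff ℝ ∞ (fun q : (ℝ × ℝ) × Eu n => A q.1 q.2) ∧
    (∀ q x a b, inner ℝ (A q x a) b = - inner ℝ a (A q x b)) ∧ (∀ q x, dv (A q) x = Y q x) ∧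
    ∀ q r, (∀ x, ‖x - z‖ ≤ r → Y q x = 0) → ∀ x, ‖x - z‖ ≤ r → A q x = 0

/-- The velocity of a germ family, cut off. -/
def LPCut : Prop := ∀ (n : ℕ), 2 ≤ n → ∀ g : ℝ × ℝ → Eu n → Eu n, VF g → ∀ (z : Eu n)
  (r₁ r₂ : ℝ), 0 < r₁ → r₁ < r₂ → ∃ X : ℝ × ℝ → Eu n → Eu n,
    ContDiff ℝ ∞ (fun q : (ℝ × ℝ) × Eu n => X q.1 q.2) ∧ (∀ q y, divg (X q) y = 0) ∧
    (∀ q y, X q y ≠ 0 → ∃ x, ‖x - z‖ ≤ r₂ ∧ y = g q x) ∧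
    (∀ q x, ‖x - z‖ ≤ r₁ → X q (g q x) = deriv (fun u => g (u, q.2) x) q.1) ∧
    ∀ q, (∀ x, ‖x - z‖ ≤ r₂ → deriv (fun u => g (u, q.2) x) q.1 = 0) → ∀ y, X q y = 0

/-- The flow (in the first parameter) of a divergence free field with compact support. -/
def LPFlow : Prop := ∀ (n : ℕ) (U : Set (Eu n)), IsOpen U → ∀ X : ℝ × ℝ → Eu n → Eu n,
  ContDiff ℝ ∞ (fun q : (ℝ × ℝ) × Eu n => X q.1 q.2) → (∀ q y, divg (X q) y = 0) →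
  (∃ K : Set (Eu n), IsCompact K ∧ K ⊆ U ∧ ∀ q, ∀ y ∉ K, X q y = 0) →
  (∃ R : ℝ, ∀ q : ℝ × ℝ, R < ‖q‖ → ∀ y, X q y = 0) →
  ∃ G : ℝ × ℝ → Eu n → Eu n, CF U G ∧ (∀ t x, G (0, t) x = x) ∧
    (∀ u t x, HasDerivAt (fun u => G (u, t) x) (X (u, t) (G (u, t) x)) u) ∧
    ∀ (t T : ℝ) (γ : ℝ → Eu n), 0 ≤ T →
      (∀ u ∈ Set.Icc (0 : ℝ) T, HasDerivAt γ (X (u, t) (γ u)) u) →
      ∀ u ∈ Set.Icc (0 : ℝ) T, γ u = G (u, t) (γ 0)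

/-- Isotopy extension. -/
def LPExt : Prop := ∀ (n N : ℕ), 2 ≤ n → ∀ U : Set (Eu n), IsOpen U → ∀ (z : Fin N → Eu n)
  (g : Fin N → ℝ × ℝ → Eu n → Eu n) (r₀ : ℝ), 0 < r₀ → (∀ i, VF (g i)) →
  (∀ i, ∀ u ≤ 0, ∀ t x, g i (u, t) x = x) → (∀ i u t x, 1 ≤ u → g i (u, t) x = g i (1, t) x) →
  (∀ i u t x, t ∉ Set.Ioo (0 : ℝ) 1 → ‖x - z i‖ ≤ r₀ → g i (u, t) x = x) →
  (∀ i q, g i q (z i) ∈ U) → (∀ i j q, i ≠ j → g i q (z i) ≠ g j q (z j)) →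
  ∃ (G : ℝ → Eu n → Eu n) (r : ℝ), CF U G ∧ 0 < r ∧ (∀ t, t ∉ Set.Ioo (0 : ℝ) 1 → ∀ x, G t x = x) ∧
    ∀ i t x, ‖x - z i‖ ≤ r → G t x = g i (1, t) x

/-- Isotopies rel small balls. -/
def LPGen : Prop := ∀ (n N : ℕ), 3 ≤ n → ∀ U : Set (Eu n), IsOpen U → Convex ℝ U →
  ∀ (z : Fin N → Eu n) (r₀ : ℝ), Function.Injective z → (∀ i, z i ∈ U) → 0 < r₀ →
  ∀ (w : Eu n → Eu n) (Φ : ℝ → Eu n → Eu n), CPath U w Φ → (∀ i x, ‖x - z i‖ ≤ r₀ → w x = x) →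
  (∀ i, ∃ H, Contr (fun t => fderiv ℝ (Φ t) (z i)) H) →
  ∃ (Φ' : ℝ → Eu n → Eu n) (r : ℝ), CPath U w Φ' ∧ 0 < r ∧
    ∀ t i x, ‖x - z i‖ ≤ r → Φ' t x = x

end

end Pool.Agent.H6.ST
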