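import Pool.Agent.H6.ST.LP.Defs
import Pool.Agent.H68.VD.Fam

/-! # The germ families -/

namespace Pool.Agent.H6.ST

open MeasureTheory Set Pool.Agent.H68.VD Pool.Agent.H68.GM
open scoped ENNReal ContDiff

namespace GermA

variable {n : ℕ}

theorem det_comp (A B : Eu n →L[ℝ] Eu n) : (A.comp B).det = A.det * B.det := by
  simp only [ContinuousLinearMap.det, ContinuousLinearMap.toLinearMap_comp]
  exact LinearMap.det_comp _ _

theorem det_id : (ContinuousLinearMap.id ℝ (Eu n)).det = 1 := by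
  simp [ContinuousLinearMap.det]

/-- the equivalence of a map with determinant one -/
theorem exists_equiv (A : Eu n →L[ℝ] Eu n) (h : A.det = 1) :
    ∃ e : Eu n ≃L[ℝ] Eu n, (e : Eu n →L[ℝ] Eu n) = A := by
  have hd : A.det ≠ 0 := by rw [h]; exact one_ne_zero
  exact ⟨ContinuousLinearMap.toContinuousLinearEquivOfDetNeZero A hd, by ext x; rfl⟩

theorem bij_of_det (A : Eu n →L[ℝ] Eu n) (h : A.det = 1) : Function.Bijective A := by
  obtain ⟨e, rfl⟩ := exists_equiv A h
  exact e.bijective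

theorem inv_left (A : Eu n →L[ℝ] Eu n) (h : A.det = 1) (x : Eu n) :
    ContinuousLinearMap.inverse A (A x) = x := by
  obtain ⟨e, rfl⟩ := exists_equiv A h
  simp

theorem inv_right (A : Eu n →L[ℝ] Eu n) (h : A.det = 1) (x : Eu n) :
    A (ContinuousLinearMap.inverse A x) = x := by
  obtain ⟨e, rfl⟩ := exists_equiv A h
  simp

theorem inv_det (A : Eu n →L[ℝ] Eu n) (h : A.det = 1) :
    (ContinuousLinearMap.inverse A).det = 1 := by
  have h1 : A.comp (ContinuousLinearMap.inverse A) = ContinuousLinearMap.id ℝ (Eu n) := by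
    ext1 x
    exact inv_right A h x
  have h2 := det_comp A (ContinuousLinearMap.inverse A)
  rw [h1, det_id, h, one_mul] at h2
  exact h2.symm

theorem inv_id : ContinuousLinearMap.inverse (ContinuousLinearMap.id ℝ (Eu n)) =
    ContinuousLinearMap.id ℝ (Eu n) := by
  ext1 x
  exact inv_left (ContinuousLinearMap.id ℝ (Eu n)) det_id x

/-- the inverse of a smooth family of matrices -/
theorem inv_smooth {E : Type*} [NormedAddCommGroup E] [NormedSpace ℝ E]
    (A : E → Eu n →L[ℝ] Eu n) (hA : ContDiff ℝ ∞ A) (h : ∀ e, (A e).det = 1) :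
    ContDiff ℝ ∞ (fun e => ContinuousLinearMap.inverse (A e)) := by
  rw [contDiff_iff_contDiffAt]
  intro e
  obtain ⟨L, hL⟩ := exists_equiv (A e) (h e)
  have h1 : ContDiffAt ℝ ∞ ContinuousLinearMap.inverse (A e) := by
    rw [← hL]
    exact contDiffAt_map_inverse L
  exact h1.comp e hA.contDiffAt

/-- an affine family -/
theorem aff {E : Type*} [NormedAddCommGroup E] [NormedSpace ℝ E] (c : E → Eu n)
    (A : E → Eu n →L[ℝ] Eu n) (hc : ContDiff ℝ ∞ c) (hA : ContDiff ℝ ∞ A)
    (h : ∀ e, (A e).det = 1) : VF (fun e x => c e + A e x) := by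
  refine ⟨?_, fun e => ?_, fun e x => ?_, fun e g hg x => ?_⟩
  · exact (hc.comp contDiff_fst).add ((hA.comp contDiff_fst).clm_apply contDiff_snd)
  · exact (Equiv.addLeft (c e)).bijective.comp (bij_of_det (A e) (h e))
  · have h1 : HasFDerivAt (fun x => c e + A e x) (A e) x := (A e).hasFDerivAt.const_add (c e)
    rw [h1.fderiv]
    exact h e
  · rw [Subgroup.mem_bot] at hg
    subst hg
    rfl

theorem st0 (x : ℝ) (h : x ≤ 0) : Real.smoothTransition x = 0 :=
  Real.smoothTransition.zero_of_nonpos h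

theorem st1 (x : ℝ) (h : 1 ≤ x) : Real.smoothTransition x = 1 :=
  Real.smoothTransition.one_of_one_le h

/-- the derivative in the second variable is smooth in the parameter -/
theorem fderiv_smooth {E : Type*} [NormedAddCommGroup E] [NormedSpace ℝ E]
    {F : E → Eu n → Eu n} (hF : ContDiff ℝ ∞ (fun q : E × Eu n => F q.1 q.2)) (z : Eu n) :
    ContDiff ℝ ∞ (fun e => fderiv ℝ (F e) z) := by
  have h1 : ContDiff ℝ ∞ (Function.uncurry F) := hF
  exact h1.fderiv contDiff_const (by simp)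

end GermA

open GermA in
theorem lp_germ (hZ : LPZoom) : LPGerm := by
  intro n Φ hΦ hΦ0 hΦ1 z r₀ hr₀ hfix hH c hc hc0 hc1 hct0 hct1
  obtain ⟨H, hH⟩ := hH
  obtain ⟨Z, hZv, hZ0, hZe⟩ := hZ n Φ hΦ z
  set ν : ℝ → ℝ := Real.smoothTransition with hν
  have hνs : ContDiff ℝ ∞ ν := Real.smoothTransition.contDiff
  set A : ℝ → Eu n →L[ℝ] Eu n := fun t => fderiv ℝ (Φ t) z with hA
  have hAs : ContDiff ℝ ∞ A := fderiv_smooth hΦ.smooth z
  have hAd : ∀ t, (A t).det = 1 := fun t => hΦ.det t z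
  set K : ℝ → Eu n →L[ℝ] Eu n := fun t => ContinuousLinearMap.inverse (A t) with hK
  have hKs : ContDiff ℝ ∞ K := inv_smooth A hAs hAd
  have hKd : ∀ t, (K t).det = 1 := fun t => inv_det (A t) (hAd t)
  -- the affine family
  set B : ℝ × ℝ → Eu n →L[ℝ] Eu n := fun q => (H (1 - ν (3 * q.1 - 1)) q.2).comp (K q.2) with hB
  have hBs : ContDiff ℝ ∞ B := by
    have h1 : ContDiff ℝ ∞ (fun q : ℝ × ℝ => H (1 - ν (3 * q.1 - 1)) q.2) :=
      hH.smooth.comp ((contDiff_const.sub (hνs.comp ((contDiff_const.mul contDiff_fst).sub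
        contDiff_const))).prodMk contDiff_snd)
    exact h1.clm_comp (hKs.comp contDiff_snd)
  have hBd : ∀ q, (B q).det = 1 := fun q => by
    rw [hB]
    simp only
    rw [det_comp, hH.det, hKd, one_mul]
  have hcs : ContDiff ℝ ∞ (fun q : ℝ × ℝ => c (3 * q.1, q.2)) :=
    hc.comp ((contDiff_const.mul contDiff_fst).prodMk contDiff_snd)
  have hV1 : VF (fun (q : ℝ × ℝ) (x : Eu n) => c (3 * q.1, q.2) + B q x) := aff _ B hcs hBs hBd
  have hV2 : VF (fun q : ℝ × ℝ => Z (ν (3 * q.1 - 2), q.2)) :=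
    FamA.isFamRe (h := fun q : ℝ × ℝ => (ν (3 * q.1 - 2), q.2)) hZv
      ((hνs.comp ((contDiff_const.mul contDiff_fst).sub contDiff_const)).prodMk contDiff_snd)
  have hV := FamA.isFamComp hV1 hV2
  -- the zoom at the centre
  have hZz : ∀ e t, Z (e, t) z = 0 := by
    intro e t
    by_cases he : e = 0
    · rw [he, hZ0]; simp
    · rw [hZe e t z he]; simp
  refine ⟨_, hV, ?_, ?_, ?_, ?_⟩
  · intro u hu t x
    show c (3 * u, t) + B (u, t) (Z (ν (3 * u - 2), t) x) = x
    have h1 : ν (3 * u - 2) = 0 := st0 _ (by linarith)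
    have h2 : ν (3 * u - 1) = 0 := st0 _ (by linarith)
    rw [hc0 _ (by linarith) t, h1, hZ0]
    show z + H (1 - ν (3 * u - 1)) t (K t (A t (x - z))) = x
    rw [h2, sub_zero, hH.u1 1 le_rfl, inv_left (A t) (hAd t)]
    simp
  · intro u t x hu
    show c (3 * u, t) + B (u, t) (Z (ν (3 * u - 2), t) x) = Φ t x
    have h1 : ν (3 * u - 2) = 1 := st1 _ (by linarith)
    have h2 : ν (3 * u - 1) = 1 := st1 _ (by linarith)
    rw [hc1 _ t (by linarith), h1, hZe 1 t x one_ne_zero]
    show Φ t z + H (1 - ν (3 * u - 1)) t (K t ((1 : ℝ)⁻¹ • (Φ t (z + (1 : ℝ) • (x - z)) - Φ t z))) = Φ t x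
    rw [h2, sub_self, hH.u0 0 le_rfl]
    show Φ t z + A t (K t ((1 : ℝ)⁻¹ • (Φ t (z + (1 : ℝ) • (x - z)) - Φ t z))) = Φ t x
    rw [inv_right (A t) (hAd t)]
    simp
  · intro u t
    show c (3 * u, t) + B (u, t) (Z (ν (3 * u - 2), t) z) = c (3 * u, t)
    rw [hZz, map_zero, add_zero]
  · intro u t x ht hx
    show c (3 * u, t) + B (u, t) (Z (ν (3 * u - 2), t) x) = x
    have hνm : 0 ≤ ν (3 * u - 2) ∧ ν (3 * u - 2) ≤ 1 :=
      ⟨Real.smoothTransition.nonneg _, Real.smoothTransition.le_one _⟩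
    -- in both cases the family is the identity in the ball
    have key : (∀ y, ‖y - z‖ ≤ r₀ → Φ t y = y) → c (3 * u, t) = z →
        (∀ v, H v t = ContinuousLinearMap.id ℝ (Eu n)) →
        c (3 * u, t) + B (u, t) (Z (ν (3 * u - 2), t) x) = x := by
      intro h1 h2 h3
      have h4 : A t = ContinuousLinearMap.id ℝ (Eu n) := by
        have h5 : Φ t =ᶠ[nhds z] id := by
          filter_upwards [Metric.closedBall_mem_nhds z hr₀] with y hy
          refine h1 y ?_
          rwa [Metric.mem_closedBall, dist_eq_norm] at hy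
        show fderiv ℝ (Φ t) z = _
        rw [h5.fderiv_eq]
        exact fderiv_id
      have h6 : Z (ν (3 * u - 2), t) x = x - z := by
        by_cases he : ν (3 * u - 2) = 0
        · rw [he, hZ0]
          show A t (x - z) = x - z
          rw [h4]; rfl
        · rw [hZe _ t x he, h1, h1]
          · rw [add_sub_cancel_left, smul_smul, inv_mul_cancel₀ he, one_smul]
          · simp [hr₀.le]
          · rw [add_sub_cancel_left, norm_smul, Real.norm_eq_abs, abs_of_nonneg hνm.1]
            calc ν (3 * u - 2) * ‖x - z‖ ≤ 1 * ‖x - z‖ :=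
                  mul_le_mul_of_nonneg_right hνm.2 (norm_nonneg _)
              _ ≤ r₀ := by rw [one_mul]; exact hx
      rw [h6, h2]
      show z + H (1 - ν (3 * u - 1)) t (ContinuousLinearMap.inverse (A t) (x - z)) = x
      rw [h3, h4, inv_id]
      simp
    rcases le_or_gt t 0 with h0 | h0
    · exact key (fun y _ => hΦ0 t h0 y) (hct0 _ t h0) (fun v => hH.t0 v t h0)
    · have h1 : 1 ≤ t := by
        by_contra h
        exact ht ⟨h0, not_le.mp h⟩
      refine key (fun y hy => ?_) (hct1 _ t h1) (fun v => hH.t1 v t h1)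
      rw [hΦ1 t h1 y]
      exact hfix y hy

end Pool.Agent.H6.ST
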